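import Pool.Agent.H79.SG.Main

set_option autoImplicit false

/-!
# The count of the solutions, for all sizes
-/

namespace Pool.Agent.H79.SG

open Finset ArithmeticFunction

open Classical in
/-- The number of solutions of `σ₂(n) = σ₂(n + 2)`. -/
theorem all : ∃ C : ℝ, 0 < C ∧ ∀ N : ℕ, 3 ≤ N →
    ({n : ℕ | 0 < n ∧ n ≤ N ∧ ∑ d ∈ n.divisors, d ^ 2 = ∑ d ∈ (n + 2).divisors, d ^ 2}.ncard : ℝ) ≤
      C * N * Real.exp (-(1 / 40 * Real.sqrt (Real.log N / Real.log (Real.log N)))) := by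
  obtain ⟨T0, hT0, h⟩ := count
  have h31 : 1 < Real.log 3 := by
    rw [Real.lt_log_iff_exp_lt (by norm_num)]
    have := Real.exp_one_lt_d9
    linarith
  set c0 := Real.log (Real.log 3) with hc0
  have hc0' : 0 < c0 := Real.log_pos h31
  refine ⟨11 + Real.exp (1 / 40 * Real.sqrt (Real.exp T0 / c0)), by positivity, ?_⟩
  intro N hN
  have hN0 : (0 : ℝ) < N := by positivity
  have hlog : 0 < Real.log N := Real.log_pos (by exact_mod_cast (by omega : 1 < N))
  set T := (Finset.range (N + 1)).filter (fun n : ℕ => 0 < n ∧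
    ∑ d ∈ n.divisors, d ^ 2 = ∑ d ∈ (n + 2).divisors, d ^ 2) with hT
  have h1 : {n : ℕ | 0 < n ∧ n ≤ N ∧
      ∑ d ∈ n.divisors, d ^ 2 = ∑ d ∈ (n + 2).divisors, d ^ 2} = (T : Set ℕ) := by
    ext n
    rw [hT, Finset.mem_coe, Finset.mem_filter, Finset.mem_range, Nat.lt_succ_iff]
    constructor
    · rintro ⟨h1, h2, h3⟩; exact ⟨h2, h1, h3⟩
    · rintro ⟨h1, h2, h3⟩; exact ⟨h2, h1, h3⟩
  rw [h1, Set.ncard_coe_finset]
  have hmem : ∀ n ∈ T, 0 < n ∧ n ≤ N ∧ sigma 2 n = sigma 2 (n + 2) := by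
    intro n hn
    rw [hT, Finset.mem_filter, Finset.mem_range] at hn
    refine ⟨hn.2.1, by omega, ?_⟩
    rw [sigma_apply, sigma_apply]
    exact hn.2.2
  set t := Real.log (Real.log N) with ht
  have hexp : Real.exp t = Real.log N := by rw [ht, Real.exp_log hlog]
  have htc : c0 ≤ t := by
    refine Real.log_le_log (by linarith) (Real.log_le_log (by norm_num) ?_)
    exact_mod_cast hN
  rw [← hexp]
  set E := Real.exp (-(1 / 40 * Real.sqrt (Real.exp t / t))) with hE
  have hE0 : 0 < E := Real.exp_pos _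
  rcases le_or_gt T0 t with htt | htt
  · refine (h N t rfl htt T hmem).trans ?_
    rw [← hE]
    have h5 : (11 : ℝ) ≤ 11 + Real.exp (1 / 40 * Real.sqrt (Real.exp T0 / c0)) := by
      have := Real.exp_pos (1 / 40 * Real.sqrt (Real.exp T0 / c0))
      linarith
    gcongr
  · have h2 : (T.card : ℝ) ≤ N := by
      have h3 : T ⊆ Finset.Ioc 0 N := by
        intro n hn
        obtain ⟨h4, h5, -⟩ := hmem n hn
        exact Finset.mem_Ioc.2 ⟨h4, h5⟩
      have h4 := Finset.card_le_card h3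
      rw [Nat.card_Ioc, Nat.sub_zero] at h4
      exact_mod_cast h4
    have h6 : 1 ≤ Real.exp (1 / 40 * Real.sqrt (Real.exp T0 / c0)) * E := by
      rw [hE, ← Real.exp_add]
      refine Real.one_le_exp ?_
      have h7 : Real.sqrt (Real.exp t / t) ≤ Real.sqrt (Real.exp T0 / c0) := by
        refine Real.sqrt_le_sqrt ?_
        exact div_le_div₀ (Real.exp_pos _).le (Real.exp_le_exp.2 htt.le) hc0' htc
      linarith
    calc (T.card : ℝ) ≤ N := h2
      _ ≤ N * (Real.exp (1 / 40 * Real.sqrt (Real.exp T0 / c0)) * E) :=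
          le_mul_of_one_le_right hN0.le h6
      _ ≤ N * (Real.exp (1 / 40 * Real.sqrt (Real.exp T0 / c0)) * E) + 11 * N * E :=
          le_add_of_nonneg_right (by positivity)
      _ = _ := by ring

end Pool.Agent.H79.SG
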