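import Mathlib

set_option autoImplicit false

/-!
# Reciprocals in residue classes and in the roots of `m ^ 2 + 1` modulo `d`
-/

namespace Pool.Agent.H79.SG

open Finset

theorem harm (N : ℕ) : ∑ i ∈ range N, 1 / ((i : ℝ) + 1) ≤ 1 + Real.log N := by
  have h := harmonic_le_one_add_log N
  unfold harmonic at h
  push_cast at h
  refine le_trans (le_of_eq ?_) h
  refine sum_congr rfl fun i _ => ?_
  rw [one_div]

/-- reciprocals in one residue class -/
theorem ap (M : Finset ℕ) (D N : ℕ) (hD : 0 < D)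
    (hM : ∀ m ∈ M, D ≤ 2 * m ∧ m ≤ N) (hc : ∀ m ∈ M, ∀ m' ∈ M, m ≡ m' [MOD D]) :
    ∑ m ∈ M, 1 / (m : ℝ) ≤ (2 + 2 * Real.log N) / D := by
  have hD0 : (0 : ℝ) < D := by exact_mod_cast hD
  rcases M.eq_empty_or_nonempty with hE | hE
  · rw [hE, sum_empty]
    have := Real.log_natCast_nonneg N
    positivity
  set b := M.min' hE with hb
  have hbM : b ∈ M := M.min'_mem hE
  have hble : ∀ m ∈ M, b ≤ m := fun m hm => M.min'_le m hm
  set j : ℕ → ℕ := fun m => (m - b) / D with hj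
  have hjm : ∀ m ∈ M, m = b + j m * D := by
    intro m hm
    have h1 : D ∣ m - b := (Nat.modEq_iff_dvd' (hble m hm)).1 (hc b hbM m hm)
    have h2 := Nat.div_mul_cancel h1
    have h3 := hble m hm
    rw [hj]
    simp only
    omega
  have hinj : Set.InjOn j (M : Set ℕ) := by
    intro m hm m' hm' h
    rw [hjm m hm, hjm m' hm', h]
  have h1 : ∀ m ∈ M, 1 / (m : ℝ) ≤ 2 / D * (1 / ((j m : ℝ) + 1)) := by
    intro m hm
    have h2 := (hM b hbM).1
    have h3 := hjm m hm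
    have h4 : (j m + 1) * D ≤ 2 * m := by nlinarith
    have h5 : ((j m : ℝ) + 1) * D ≤ 2 * m := by exact_mod_cast h4
    have h6 : (0 : ℝ) < (j m : ℝ) + 1 := by positivity
    have h7 : (0 : ℝ) < m := by nlinarith
    rw [div_mul_div_comm, mul_one, div_le_div_iff₀ h7 (by positivity)]
    nlinarith
  refine (sum_le_sum h1).trans ?_
  rw [← mul_sum]
  have h2 : ∑ m ∈ M, 1 / ((j m : ℝ) + 1) ≤ 1 + Real.log N := by
    rw [← sum_image (f := fun i : ℕ => 1 / ((i : ℝ) + 1)) (g := j) hinj]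
    refine le_trans (sum_le_sum_of_subset_of_nonneg ?_ fun i _ _ => by positivity) (harm N)
    intro i hi
    obtain ⟨m, hm, rfl⟩ := mem_image.1 hi
    rw [mem_range]
    have h3 := hjm m hm
    have h4 := (hM m hm).2
    have h5 := (hM b hbM).1
    have h6 : j m ≤ j m * D := Nat.le_mul_of_pos_right _ hD
    omega
  calc 2 / (D : ℝ) * ∑ m ∈ M, 1 / ((j m : ℝ) + 1) ≤ 2 / (D : ℝ) * (1 + Real.log N) :=
        mul_le_mul_of_nonneg_left h2 (by positivity)
    _ = _ := by ring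

/-- reciprocals of the `m ≥ d` with `d ∣ m ^ 2 + 1` -/
theorem roots (d N : ℕ) (hd : 0 < d) (M : Finset ℕ)
    (hM : ∀ m ∈ M, d ≤ m ∧ m ≤ N ∧ d ∣ m ^ 2 + 1) :
    ∑ m ∈ M, 1 / (m : ℝ) ≤ d.divisors.card * ((4 + 4 * Real.log N) / d) := by
  have hd0 : (0 : ℝ) < d := by exact_mod_cast hd
  have hlog := Real.log_natCast_nonneg N
  rcases M.eq_empty_or_nonempty with hE | hE
  · rw [hE, sum_empty]
    positivity
  set b := M.min' hE with hb
  have hbM : b ∈ M := M.min'_mem hE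
  have hble : ∀ m ∈ M, b ≤ m := fun m hm => M.min'_le m hm
  have hmaps : ∀ m ∈ M, Nat.gcd d (m - b) ∈ d.divisors := by
    intro m _
    rw [Nat.mem_divisors]
    exact ⟨Nat.gcd_dvd_left _ _, hd.ne'⟩
  rw [← sum_fiberwise_of_maps_to hmaps, ← nsmul_eq_mul, ← sum_const]
  refine sum_le_sum fun g hg => ?_
  rw [Nat.mem_divisors] at hg
  obtain ⟨⟨e, he⟩, -⟩ := hg
  have hg0 : 0 < g := Nat.pos_of_ne_zero (by rintro rfl; rw [zero_mul] at he; omega)
  have he0 : 0 < e := Nat.pos_of_ne_zero (by rintro rfl; rw [mul_zero] at he; omega)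
  rcases (M.filter (fun m => Nat.gcd d (m - b) = g)).eq_empty_or_nonempty with hF | ⟨m1, hm1⟩
  · rw [hF, sum_empty]
    positivity
  have hkey : ∀ m ∈ M.filter (fun m => Nat.gcd d (m - b) = g), g ∣ m - b ∧ e ∣ m + b := by
    intro m hm
    obtain ⟨h1, h2⟩ := mem_filter.1 hm
    have h3 : g ∣ m - b := h2 ▸ Nat.gcd_dvd_right _ _
    refine ⟨h3, ?_⟩
    have h4 : d ∣ (m - b) * (m + b) := by
      have h5 := Nat.dvd_sub (hM m h1).2.2 (hM b hbM).2.2
      have h6 : m ^ 2 + 1 - (b ^ 2 + 1) = (m - b) * (m + b) := by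
        rw [Nat.add_sub_add_right, Nat.sq_sub_sq, mul_comm]
      rwa [h6] at h5
    have h5 : d ∣ Nat.gcd d (m - b) * (m + b) := Nat.dvd_gcd_mul_iff_dvd_mul.2 h4
    rw [h2, he] at h5
    exact Nat.dvd_of_mul_dvd_mul_left hg0 h5
  have hgcd : Nat.gcd g e ∣ 2 := by
    obtain ⟨h1, h2⟩ := hkey m1 hm1
    have h3 : Nat.gcd g e ∣ 2 * b := by
      have h4 := Nat.dvd_sub ((Nat.gcd_dvd_right g e).trans h2) ((Nat.gcd_dvd_left g e).trans h1)
      have h5 := hble m1 (mem_filter.1 hm1).1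
      have h6 : m1 + b - (m1 - b) = 2 * b := by omega
      rwa [h6] at h4
    have h4 : Nat.Coprime (Nat.gcd g e) b := by
      have h5 : Nat.gcd g e ∣ b ^ 2 + 1 :=
        ((Nat.gcd_dvd_left g e).trans ⟨e, he⟩).trans (hM b hbM).2.2
      refine Nat.Coprime.coprime_dvd_left h5 ?_
      have h6 : Nat.Coprime (b * b + 1) b := by
        rw [Nat.coprime_mul_right_add_left]
        exact Nat.coprime_one_left b
      rwa [sq]
    exact h4.dvd_of_dvd_mul_right h3
  have hlcm : d ≤ 2 * Nat.lcm g e := by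
    have h1 := Nat.gcd_mul_lcm g e
    have h2 := Nat.le_of_dvd (by norm_num) hgcd
    calc d = Nat.gcd g e * Nat.lcm g e := by rw [h1, he]
      _ ≤ 2 * Nat.lcm g e := Nat.mul_le_mul_right _ h2
  have hlcm0 : 0 < Nat.lcm g e := Nat.lcm_pos hg0 he0
  have hlcmd : Nat.lcm g e ∣ d := Nat.lcm_dvd ⟨e, he⟩ ⟨g, by rw [he]; ring⟩
  have h1 := ap (M.filter (fun m => Nat.gcd d (m - b) = g)) (Nat.lcm g e) N hlcm0 ?_ ?_
  · refine h1.trans ?_
    have h2 : (d : ℝ) ≤ 2 * (Nat.lcm g e : ℕ) := by exact_mod_cast hlcm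
    have h3 : (0 : ℝ) < (Nat.lcm g e : ℕ) := by exact_mod_cast hlcm0
    rw [div_le_div_iff₀ h3 hd0]
    nlinarith
  · intro m hm
    obtain ⟨h2, -⟩ := mem_filter.1 hm
    have h3 := Nat.le_of_dvd hd hlcmd
    have h4 := hM m h2
    exact ⟨by omega, h4.2.1⟩
  · intro m hm m' hm'
    obtain ⟨h2, h3⟩ := hkey m hm
    obtain ⟨h4, h5⟩ := hkey m' hm'
    have h6 := hble m (mem_filter.1 hm).1
    have h7 := hble m' (mem_filter.1 hm').1
    rw [Nat.modEq_iff_dvd, Int.natCast_dvd]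
    refine Nat.lcm_dvd ?_ ?_
    · rw [← Int.natCast_dvd]
      have h8 : ((m' : ℤ) - m) = ((m' - b : ℕ) : ℤ) - ((m - b : ℕ) : ℤ) := by
        push_cast [h6, h7]; ring
      rw [h8]
      exact dvd_sub (Int.natCast_dvd_natCast.2 h4) (Int.natCast_dvd_natCast.2 h2)
    · rw [← Int.natCast_dvd]
      have h8 : ((m' : ℤ) - m) = ((m' + b : ℕ) : ℤ) - ((m + b : ℕ) : ℤ) := by
        push_cast; ring
      rw [h8]
      exact dvd_sub (Int.natCast_dvd_natCast.2 h5) (Int.natCast_dvd_natCast.2 h3)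

end Pool.Agent.H79.SG
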