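import Pool.Agent.H79.SG.Ap
import Pool.Agent.H75.AP.MertensB
import Pool.Agent.H99.PC.Rnk

set_option autoImplicit false

/-!
# Few primes `p` such that `p ^ 2 + 1` has only small prime factors
-/

namespace Pool.Agent.H79.SG

open Finset Pool.Agent.H75.AP

/-- a smooth integer `W ≥ Z` has a divisor in `(Z / L, Z]` -/
theorem smooth_dvd (W Z L : ℕ) (hZ : 1 ≤ Z) (hZW : Z < W)
    (hs : ∀ q : ℕ, q.Prime → q ∣ W → q ≤ L) : ∃ d, d ∣ W ∧ d ≤ Z ∧ Z < d * L := by
  classical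
  set S := (Icc 1 Z).filter (fun d => d ∣ W) with hS
  have h1 : 1 ∈ S := by
    rw [hS, mem_filter, mem_Icc]
    exact ⟨⟨le_rfl, hZ⟩, one_dvd _⟩
  obtain ⟨d, hd, hmax⟩ := S.exists_max_image id ⟨1, h1⟩
  rw [hS, mem_filter, mem_Icc] at hd
  obtain ⟨⟨hd1, hd2⟩, c, hc⟩ := hd
  refine ⟨d, ⟨c, hc⟩, hd2, ?_⟩
  by_contra hcon
  push Not at hcon
  have hc1 : c ≠ 1 := by
    rintro rfl
    omega
  obtain ⟨q, hq, hqc⟩ := Nat.exists_prime_and_dvd hc1
  have hqL := hs q hq (hc ▸ hqc.mul_left d)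
  have h2 : d * q ∈ S := by
    rw [hS, mem_filter, mem_Icc]
    refine ⟨⟨Nat.mul_pos hd1 hq.pos, (Nat.mul_le_mul_left d hqL).trans hcon⟩, ?_⟩
    rw [hc]
    exact Nat.mul_dvd_mul_left d hqc
  have h3 := hmax _ h2
  simp only [id] at h3
  have h4 := hq.two_le
  nlinarith

/-- smooth numbers: the sum of the divisor function -/
theorem tau_sum (S : Finset ℕ) (s : ℝ) (hS : ∀ d ∈ S, 0 < d) :
    ∑ d ∈ S, (d.divisors.card : ℝ) * (d : ℝ) ^ s ≤
      (∑ e ∈ S.biUnion Nat.divisors, (e : ℝ) ^ s) ^ 2 := by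
  classical
  rw [sq, sum_mul_sum, ← sum_product']
  have h1 : ∑ d ∈ S, (d.divisors.card : ℝ) * (d : ℝ) ^ s =
      ∑ x ∈ S.sigma (fun d => d.divisors), ((x.2 : ℕ) : ℝ) ^ s * ((x.1 / x.2 : ℕ) : ℝ) ^ s := by
    rw [sum_sigma]
    refine sum_congr rfl fun d hd => ?_
    rw [← nsmul_eq_mul, ← sum_const]
    refine sum_congr rfl fun e he => ?_
    simp only
    rw [← Real.mul_rpow (Nat.cast_nonneg _) (Nat.cast_nonneg _)]
    congr 1
    have h2 := Nat.mul_div_cancel' (Nat.dvd_of_mem_divisors he)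
    exact_mod_cast h2.symm
  rw [h1]
  set φ : (Σ _ : ℕ, ℕ) → ℕ × ℕ := fun x => (x.2, x.1 / x.2) with hφ
  have hinj : Set.InjOn φ (S.sigma (fun d => d.divisors) : Set (Σ _ : ℕ, ℕ)) := by
    rintro ⟨d, e⟩ hx ⟨d', e'⟩ hx' h
    rw [mem_coe, mem_sigma] at hx hx'
    obtain ⟨h2, h3⟩ := hx
    obtain ⟨h4, h5⟩ := hx'
    simp only at h2 h3 h4 h5
    have h6 : e = e' := (Prod.mk.inj h).1
    have h7 : d / e = d' / e' := (Prod.mk.inj h).2
    subst h6
    have h8 := Nat.mul_div_cancel' (Nat.dvd_of_mem_divisors h3)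
    have h9 := Nat.mul_div_cancel' (Nat.dvd_of_mem_divisors h5)
    rw [h7, h9] at h8
    subst h8
    rfl
  rw [← sum_image (f := fun x : ℕ × ℕ => ((x.1 : ℕ) : ℝ) ^ s * ((x.2 : ℕ) : ℝ) ^ s) (g := φ) hinj]
  refine sum_le_sum_of_subset_of_nonneg ?_ fun x _ _ => by positivity
  intro x hx
  obtain ⟨⟨d, e⟩, hde, rfl⟩ := mem_image.1 hx
  rw [mem_sigma] at hde
  obtain ⟨h2, h3⟩ := hde
  simp only at h2 h3
  rw [hφ, mem_product, mem_biUnion, mem_biUnion]
  refine ⟨⟨d, h2, h3⟩, d, h2, ?_⟩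
  rw [Nat.mem_divisors]
  exact ⟨Nat.div_dvd_of_dvd (Nat.dvd_of_mem_divisors h3), (hS d h2).ne'⟩

/-- the `p` such that `p ^ 2 + 1` has only prime factors up to `exp (4 s)` -/
theorem bad : ∃ T0 : ℝ, 1 ≤ T0 ∧ ∀ (N : ℕ) (t s : ℝ), t = Real.log (Real.log N) → T0 ≤ t →
    2 ≤ s → 4 * s ≤ Real.exp t → ∀ P : Finset ℕ, (∀ p ∈ P, p ≤ N ∧
      Real.exp (200 * t * s) < (p : ℝ) ∧ ∀ l : ℕ, l.Prime → l ∣ p ^ 2 + 1 → (l : ℝ) ≤ Real.exp (4 * s)) →
    ∑ p ∈ P, (p : ℝ) ^ (-1 + 1 / (200 * t * s)) ≤ 1 := by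
  classical
  obtain ⟨C, hC, hM⟩ := mertens_upper
  refine ⟨5 + 30 * C, by linarith, ?_⟩
  intro N t s ht hT0 hs hsN P hP
  have ht1 : 5 ≤ t := by linarith
  have hlogN : Real.exp t = Real.log N := by
    rw [ht]
    refine Real.exp_log ?_
    by_contra hcon
    push Not at hcon
    have h1 : Real.log N = 0 := le_antisymm hcon (Real.log_natCast_nonneg N)
    rw [h1, Real.log_zero] at ht
    linarith
  set η := 1 / (200 * t * s) with hη
  set L := ⌊Real.exp (4 * s)⌋₊ with hL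
  have hLle : (L : ℝ) ≤ Real.exp (4 * s) := Nat.floor_le (Real.exp_pos _).le
  have hts : 0 < 200 * t * s := by positivity
  have hη0 : 0 < η := by positivity
  have hη1 : η * (4 * s) ≤ 1 := by
    rw [hη, one_div, inv_mul_le_iff₀ hts]
    nlinarith
  set l0 := 1 / (4 * s) with hl0
  have hl0' : 0 < l0 := by positivity
  have hl1 : l0 * (4 * s) = 1 := by rw [hl0]; field_simp
  have hηl : η ≤ l0 := by
    refine le_of_mul_le_mul_right (a := 4 * s) ?_ (by positivity)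
    rw [hl1]; exact hη1
  set a := η + l0 with ha
  have ha4 : a ≤ 1 / 4 := by
    have h1 : l0 ≤ 1 / 8 := by
      rw [hl0]
      exact one_div_le_one_div_of_le (by norm_num) (by linarith)
    linarith
  have has : a * (4 * s) ≤ 2 := by rw [ha, add_mul]; linarith
  set S := (Icc 1 N).filter (fun d => (∀ q : ℕ, q.Prime → q ∣ d → q ≤ L) ∧
    Real.exp (200 * t * s) < (d : ℝ) * Real.exp (4 * s)) with hS
  have hSpos : ∀ d ∈ S, 0 < d := by
    intro d hd
    rw [hS, mem_filter, mem_Icc] at hd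
    exact hd.1.1
  -- every element of `P` has a divisor of `p ^ 2 + 1` in `S`
  have hex : ∀ p ∈ P, ∃ d ∈ S, d ∣ p ^ 2 + 1 ∧ d ≤ p ∧ p < d * L := by
    intro p hp
    obtain ⟨h1, h2, h3⟩ := hP p hp
    have hp0 : 1 ≤ p := by
      have h4 : (0 : ℝ) < p := lt_trans (Real.exp_pos _) h2
      exact_mod_cast h4
    obtain ⟨d, hd1, hd2, hd3⟩ := smooth_dvd (p ^ 2 + 1) p L hp0 (by nlinarith)
      (fun q hq hqd => Nat.le_floor (h3 q hq hqd))
    have hd0 : 0 < d := Nat.pos_of_dvd_of_pos hd1 (by positivity)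
    refine ⟨d, ?_, hd1, hd2, hd3⟩
    rw [hS, mem_filter, mem_Icc]
    refine ⟨⟨hd0, hd2.trans h1⟩, fun q hq hqd => Nat.le_floor (h3 q hq (hqd.trans hd1)), ?_⟩
    have h4 : (p : ℝ) < d * L := by exact_mod_cast hd3
    calc Real.exp (200 * t * s) < p := h2
      _ ≤ d * L := h4.le
      _ ≤ d * Real.exp (4 * s) := mul_le_mul_of_nonneg_left hLle (Nat.cast_nonneg _)
  have h1 : ∑ p ∈ P, (p : ℝ) ^ (-1 + η) ≤
      ∑ d ∈ S, ∑ p ∈ P.filter (fun p => d ∣ p ^ 2 + 1 ∧ d ≤ p ∧ p < d * L), (p : ℝ) ^ (-1 + η) := by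
    have h2 : ∀ d ∈ S, ∑ p ∈ P.filter (fun p => d ∣ p ^ 2 + 1 ∧ d ≤ p ∧ p < d * L),
        (p : ℝ) ^ (-1 + η) = ∑ p ∈ P, if d ∣ p ^ 2 + 1 ∧ d ≤ p ∧ p < d * L then
          (p : ℝ) ^ (-1 + η) else 0 := by
      intro d _
      rw [sum_filter]
    rw [sum_congr rfl h2, sum_comm]
    refine sum_le_sum fun p hp => ?_
    obtain ⟨d, hd, h3⟩ := hex p hp
    calc (p : ℝ) ^ (-1 + η) = (fun d => if d ∣ p ^ 2 + 1 ∧ d ≤ p ∧ p < d * L then
          (p : ℝ) ^ (-1 + η) else 0) d := (if_pos h3).symm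
      _ ≤ _ := single_le_sum (f := fun d => if d ∣ p ^ 2 + 1 ∧ d ≤ p ∧ p < d * L then
          (p : ℝ) ^ (-1 + η) else 0) (fun d _ => by
            split_ifs
            · positivity
            · exact le_rfl) hd
  -- one divisor
  have h2 : ∀ d ∈ S, ∑ p ∈ P.filter (fun p => d ∣ p ^ 2 + 1 ∧ d ≤ p ∧ p < d * L),
      (p : ℝ) ^ (-1 + η) ≤ Real.exp 1 * (4 + 4 * Real.log N) * Real.exp (1 - 50 * t) *
        ((d.divisors.card : ℝ) * (d : ℝ) ^ (-1 + a)) := by
    intro d hd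
    have hd0 := hSpos d hd
    rw [hS, mem_filter] at hd
    have hdL := hd.2.2
    have hdr : (0 : ℝ) < d := by exact_mod_cast hd0
    have h3 : ∀ p ∈ P.filter (fun p => d ∣ p ^ 2 + 1 ∧ d ≤ p ∧ p < d * L),
        (p : ℝ) ^ (-1 + η) ≤ Real.exp 1 * (d : ℝ) ^ η * (1 / (p : ℝ)) := by
      intro p hp
      obtain ⟨h4, h5, h6, h7⟩ := mem_filter.1 hp
      have hp0 : (0 : ℝ) < p := by
        have : 0 < p := by omega
        exact_mod_cast this
      rw [Real.rpow_add hp0, Real.rpow_neg_one, one_div, mul_comm]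
      refine mul_le_mul_of_nonneg_right ?_ (by positivity)
      have h8 : (p : ℝ) ≤ Real.exp (4 * s) * d := by
        have h9 : (p : ℝ) ≤ d * L := by exact_mod_cast h7.le
        nlinarith
      calc (p : ℝ) ^ η ≤ (Real.exp (4 * s) * d) ^ η := Real.rpow_le_rpow hp0.le h8 hη0.le
        _ = Real.exp (4 * s) ^ η * (d : ℝ) ^ η := Real.mul_rpow (Real.exp_pos _).le hdr.le
        _ ≤ Real.exp 1 * (d : ℝ) ^ η := by
            refine mul_le_mul_of_nonneg_right ?_ (by positivity)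
            rw [← Real.exp_mul]
            exact Real.exp_le_exp.2 (by linarith)
    refine (sum_le_sum h3).trans ?_
    rw [← mul_sum]
    have h4 := roots d N hd0 (P.filter (fun p => d ∣ p ^ 2 + 1 ∧ d ≤ p ∧ p < d * L)) (by
      intro m hm
      obtain ⟨h5, h6, h7, -⟩ := mem_filter.1 hm
      exact ⟨h7, (hP m h5).1, h6⟩)
    have h5 : (d : ℝ) ^ η / d ≤ Real.exp (1 - 50 * t) * (d : ℝ) ^ (-1 + a) := by
      have h6 : (d : ℝ) ^ (-1 + a) = (d : ℝ) ^ η / d * (d : ℝ) ^ l0 := by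
        rw [ha, ← add_assoc, Real.rpow_add hdr, Real.rpow_add hdr, Real.rpow_neg_one]
        ring
      have h7 : 1 ≤ Real.exp (1 - 50 * t) * (d : ℝ) ^ l0 := by
        have h8 : Real.exp (200 * t * s - 4 * s) ≤ d := by
          rw [Real.exp_sub, div_le_iff₀ (Real.exp_pos _)]
          exact hdL.le
        have h9 : Real.exp (50 * t - 1) ≤ (d : ℝ) ^ l0 := by
          have h10 : Real.exp (50 * t - 1) = Real.exp (200 * t * s - 4 * s) ^ l0 := by
            rw [← Real.exp_mul]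
            congr 1
            rw [hl0]
            field_simp
            ring
          rw [h10]
          exact Real.rpow_le_rpow (Real.exp_pos _).le h8 hl0'.le
        calc (1 : ℝ) = Real.exp (1 - 50 * t) * Real.exp (50 * t - 1) := by
              rw [← Real.exp_add]; simp
          _ ≤ _ := mul_le_mul_of_nonneg_left h9 (Real.exp_pos _).le
      rw [h6]
      calc (d : ℝ) ^ η / d = (d : ℝ) ^ η / d * 1 := by ring
        _ ≤ (d : ℝ) ^ η / d * (Real.exp (1 - 50 * t) * (d : ℝ) ^ l0) :=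
            mul_le_mul_of_nonneg_left h7 (by positivity)
        _ = _ := by ring
    calc Real.exp 1 * (d : ℝ) ^ η * ∑ p ∈ P.filter (fun p => d ∣ p ^ 2 + 1 ∧ d ≤ p ∧ p < d * L),
          1 / (p : ℝ)
        ≤ Real.exp 1 * (d : ℝ) ^ η * (d.divisors.card * ((4 + 4 * Real.log N) / d)) :=
          mul_le_mul_of_nonneg_left h4 (by positivity)
      _ = Real.exp 1 * (4 + 4 * Real.log N) * (d.divisors.card : ℝ) * ((d : ℝ) ^ η / d) := by
          ring
      _ ≤ Real.exp 1 * (4 + 4 * Real.log N) * (d.divisors.card : ℝ) *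
          (Real.exp (1 - 50 * t) * (d : ℝ) ^ (-1 + a)) := by
          refine mul_le_mul_of_nonneg_left h5 ?_
          have := Real.log_natCast_nonneg N
          positivity
      _ = _ := by ring
  -- the sum over the smooth numbers
  have h3 : ∑ d ∈ S, (d.divisors.card : ℝ) * (d : ℝ) ^ (-1 + a) ≤ Real.exp (30 * (t + C)) := by
    refine (tau_sum S (-1 + a) hSpos).trans ?_
    set Q := PI 0 (Real.exp (4 * s)) with hQ
    have hQm : ∀ p : ℕ, p ∈ Q ↔ p.Prime ∧ (p : ℝ) ≤ Real.exp (4 * s) := by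
      intro p
      rw [hQ]
      unfold PI
      rw [mem_filter, mem_range, Nat.lt_succ_iff, Nat.le_floor_iff (Real.exp_pos _).le]
      constructor
      · rintro ⟨h1, h2, -⟩; exact ⟨h2, h1⟩
      · rintro ⟨h1, h2⟩; exact ⟨h2, h1, by exact_mod_cast h1.pos⟩
    have h4 := Pool.Agent.H99.PC.rnk Q (S.biUnion Nat.divisors) (fun p hp => ((hQm p).1 hp).1)
      (fun m hm => by
        obtain ⟨d, hd, hmd⟩ := mem_biUnion.1 hm
        have h5 := Nat.dvd_of_mem_divisors hmd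
        have h6 := hSpos d hd
        rw [hS, mem_filter] at hd
        refine ⟨(Nat.pos_of_dvd_of_pos h5 h6).ne', fun p hp hpm => (hQm p).2 ⟨hp, ?_⟩⟩
        have h7 := hd.2.1 p hp (hpm.trans h5)
        exact (Nat.cast_le.2 h7).trans hLle) a ha4
    have h5 : ∑ p ∈ Q, (p : ℝ) ^ (-1 + a) ≤ 7.4 * (t + C) := by
      have h6 : ∑ p ∈ Q, (p : ℝ) ^ (-1 + a) ≤ ∑ p ∈ Q, Real.exp 2 * (1 / (p : ℝ)) := by
        refine sum_le_sum fun p hp => ?_
        obtain ⟨h7, h8⟩ := (hQm p).1 hp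
        have h9 : (0 : ℝ) < p := by exact_mod_cast h7.pos
        rw [Real.rpow_add h9, Real.rpow_neg_one, mul_comm, one_div (p : ℝ)]
        refine mul_le_mul_of_nonneg_right ?_ (by positivity)
        calc (p : ℝ) ^ a ≤ Real.exp (4 * s) ^ a := Real.rpow_le_rpow h9.le h8 (by positivity)
          _ = Real.exp (4 * s * a) := by rw [← Real.exp_mul]
          _ ≤ Real.exp 2 := Real.exp_le_exp.2 (by linarith)
      refine h6.trans ?_
      rw [← mul_sum]
      have h7 : (3 : ℝ) ≤ Real.exp (4 * s) := by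
        have := Real.add_one_le_exp (4 * s)
        linarith
      have h8 := hM (Real.exp (4 * s)) h7
      rw [Real.log_exp] at h8
      have h9 : Real.log (4 * s) ≤ t := by
        rw [Real.log_le_iff_le_exp (by positivity)]
        exact hsN
      have h10 : Real.exp 2 ≤ 7.4 := by
        have h11 : Real.exp 2 = Real.exp 1 ^ 2 := by rw [← Real.exp_nat_mul]; norm_num
        have h12 := Real.exp_one_lt_d9
        rw [h11]
        calc Real.exp 1 ^ 2 ≤ 2.7182818286 ^ 2 := pow_le_pow_left₀ (Real.exp_pos _).le h12.le 2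
          _ ≤ 7.4 := by norm_num
      calc Real.exp 2 * ∑ p ∈ Q, 1 / (p : ℝ) ≤ Real.exp 2 * (t + C) :=
            mul_le_mul_of_nonneg_left (h8.trans (by linarith)) (Real.exp_pos _).le
        _ ≤ 7.4 * (t + C) := mul_le_mul_of_nonneg_right h10 (by linarith)
    have h6 : ∑ e ∈ S.biUnion Nat.divisors, (e : ℝ) ^ (-1 + a) ≤ Real.exp (15 * (t + C)) := by
      refine h4.trans (Real.exp_le_exp.2 ?_)
      linarith
    calc (∑ e ∈ S.biUnion Nat.divisors, (e : ℝ) ^ (-1 + a)) ^ 2 ≤ Real.exp (15 * (t + C)) ^ 2 :=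
          pow_le_pow_left₀ (sum_nonneg fun e _ => by positivity) h6 2
      _ = Real.exp (30 * (t + C)) := by
          rw [← Real.exp_nat_mul]; congr 1; push_cast; ring
  refine h1.trans ((sum_le_sum h2).trans ?_)
  rw [← mul_sum]
  have h4 : 4 + 4 * Real.log N ≤ Real.exp (t + 3) := by
    rw [← hlogN, Real.exp_add]
    have h5 := Real.add_one_le_exp (3 : ℝ)
    have h6 := Real.add_one_le_exp t
    have h7 : (8 : ℝ) ≤ Real.exp 3 := by
      have h8 : Real.exp 3 = Real.exp 1 ^ 3 := by rw [← Real.exp_nat_mul]; norm_num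
      have h9 := Real.exp_one_gt_d9
      rw [h8]
      calc (8 : ℝ) ≤ 2.7182818283 ^ 3 := by norm_num
        _ ≤ Real.exp 1 ^ 3 := pow_le_pow_left₀ (by norm_num) h9.le 3
    nlinarith
  calc Real.exp 1 * (4 + 4 * Real.log N) * Real.exp (1 - 50 * t) *
        ∑ d ∈ S, (d.divisors.card : ℝ) * (d : ℝ) ^ (-1 + a)
      ≤ Real.exp 1 * Real.exp (t + 3) * Real.exp (1 - 50 * t) * Real.exp (30 * (t + C)) := by
        gcongr
    _ = Real.exp (1 + (t + 3) + (1 - 50 * t) + 30 * (t + C)) := by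
        rw [← Real.exp_add, ← Real.exp_add, ← Real.exp_add]
    _ ≤ 1 := by
        rw [Real.exp_le_one_iff]
        linarith

end Pool.Agent.H79.SG
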