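import Pool.Agent.H79.SG.Ap

set_option autoImplicit false

/-!
# Three counts
-/

namespace Pool.Agent.H79.SG

open Finset

/-- few integers are divisible by a large square -/
theorem sq_count (N : ℕ) (Y : ℝ) (hY : 1 ≤ Y) (T : Finset ℕ)
    (hT : ∀ n ∈ T, 0 < n ∧ n ≤ N ∧ ∃ b : ℕ, Y ≤ b ∧ b ^ 2 ∣ n) :
    (T.card : ℝ) ≤ 2 * N / Y := by
  classical
  set B := ⌈Y⌉₊ with hB
  have hYB : Y ≤ B := Nat.le_ceil Y
  have hB1 : 1 ≤ B := by
    have : (1 : ℝ) ≤ B := hY.trans hYB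
    exact_mod_cast this
  have hsub : T ⊆ (Ioo (B - 1) (N + 1)).biUnion
      (fun b => (Ioc 0 N).filter (fun n => b ^ 2 ∣ n)) := by
    intro n hn
    obtain ⟨h1, h2, b, h3, h4⟩ := hT n hn
    have h5 : B ≤ b := Nat.ceil_le.2 h3
    have h6 : b ≤ b ^ 2 := Nat.le_self_pow (by norm_num) b
    have h7 := Nat.le_of_dvd h1 h4
    rw [mem_biUnion]
    refine ⟨b, ?_, ?_⟩
    · rw [mem_Ioo]; omega
    · rw [mem_filter, mem_Ioc]; exact ⟨⟨h1, h2⟩, h4⟩
  have h1 : (T.card : ℝ) ≤ ∑ b ∈ Ioo (B - 1) (N + 1),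
      (((Ioc 0 N).filter (fun n => b ^ 2 ∣ n)).card : ℝ) := by
    have h2 := (card_le_card hsub).trans card_biUnion_le
    exact_mod_cast h2
  have h2 : ∀ b ∈ Ioo (B - 1) (N + 1), (((Ioc 0 N).filter (fun n => b ^ 2 ∣ n)).card : ℝ) ≤
      N * ((b : ℝ) ^ 2)⁻¹ := by
    intro b hb
    rw [Nat.Ioc_filter_dvd_card_eq_div]
    refine Nat.cast_div_le.trans (le_of_eq ?_)
    rw [div_eq_mul_inv, Nat.cast_pow]
  refine h1.trans ((sum_le_sum h2).trans ?_)
  rw [← mul_sum]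
  have h3 := sum_Ioo_inv_sq_le (α := ℝ) (B - 1) (N + 1)
  have h4 : ((B - 1 : ℕ) : ℝ) + 1 = B := by
    rw [Nat.cast_sub hB1]; simp
  rw [h4] at h3
  have hY0 : 0 < Y := by linarith
  calc (N : ℝ) * ∑ b ∈ Ioo (B - 1) (N + 1), ((b : ℝ) ^ 2)⁻¹ ≤ N * (2 / B) :=
        mul_le_mul_of_nonneg_left h3 (Nat.cast_nonneg _)
    _ ≤ N * (2 / Y) :=
        mul_le_mul_of_nonneg_left (div_le_div_of_nonneg_left (by norm_num) hY0 hYB)
          (Nat.cast_nonneg _)
    _ = _ := by ring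

/-- two different primes divide `n` and `n + 2` -/
theorem crt_count (N p r : ℕ) (hp : p.Prime) (hr : r.Prime) (hpr : p ≠ r) (T : Finset ℕ)
    (hT : ∀ n ∈ T, n ≤ N ∧ p ∣ n ∧ r ∣ n + 2) :
    (T.card : ℝ) ≤ N / ((p : ℝ) * r) + 1 := by
  classical
  have hpr0 : 0 < p * r := Nat.mul_pos hp.pos hr.pos
  have hpr0' : (0 : ℝ) < (p : ℝ) * r := by exact_mod_cast hpr0
  rcases T.eq_empty_or_nonempty with hE | hE
  · rw [hE]
    simp only [card_empty, Nat.cast_zero]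
    positivity
  set b := T.min' hE with hb
  have hbT : b ∈ T := T.min'_mem hE
  have hble : ∀ m ∈ T, b ≤ m := fun m hm => T.min'_le m hm
  have hcop : Nat.Coprime p r := (Nat.coprime_primes hp hr).2 hpr
  have hdiv : ∀ n ∈ T, p * r ∣ n - b := by
    intro n hn
    obtain ⟨h1, h2, h3⟩ := hT n hn
    obtain ⟨h4, h5, h6⟩ := hT b hbT
    refine hcop.mul_dvd_of_dvd_of_dvd (Nat.dvd_sub h2 h5) ?_
    have h7 := Nat.dvd_sub h3 h6
    have h8 : n + 2 - (b + 2) = n - b := by omega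
    rwa [h8] at h7
  have h1 : T.card ≤ (range (N / (p * r) + 1)).card := by
    refine card_le_card_of_injOn (fun n => (n - b) / (p * r)) ?_ ?_
    · intro n hn
      rw [mem_coe, mem_range, Nat.lt_succ_iff]
      exact Nat.div_le_div_right ((Nat.sub_le _ _).trans (hT n hn).1)
    · intro n hn n' hn' h
      have h2 := Nat.div_mul_cancel (hdiv n hn)
      have h3 := Nat.div_mul_cancel (hdiv n' hn')
      have h4 := hble n hn
      have h5 := hble n' hn'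
      simp only at h
      rw [h, h3] at h2
      omega
  rw [card_range] at h1
  have h2 : (T.card : ℝ) ≤ ((N / (p * r) : ℕ) : ℝ) + 1 := by exact_mod_cast h1
  have h3 : ((N / (p * r) : ℕ) : ℝ) ≤ N / ((p : ℝ) * r) := by
    refine Nat.cast_div_le.trans (le_of_eq ?_)
    rw [Nat.cast_mul]
  linarith

/-- two linear factors determine `n` up to two values -/
theorem quad_count (m k a b : ℕ) (hm : 0 < m) (hb : 0 < b) (T : Finset ℕ)
    (hT : ∀ n ∈ T, ∃ p q : ℕ, n = m * p ∧ n + 2 = k * q ∧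
      a * (p ^ 2 + 1) = b * (q ^ 2 + 1)) : T.card ≤ 2 := by
  by_contra hcon
  push Not at hcon
  obtain ⟨n1, h1, n2, h2, n3, h3, h12, h13, h23⟩ := Finset.two_lt_card.1 hcon
  have hkey : ∀ n ∈ T, ∃ p : ℤ, (n : ℤ) = m * p ∧
      ((a : ℤ) * k ^ 2 - b * m ^ 2) * p ^ 2 - 4 * b * m * p + (a * k ^ 2 - 4 * b - b * k ^ 2) = 0 := by
    intro n hn
    obtain ⟨p, q, h4, h5, h6⟩ := hT n hn
    refine ⟨p, by rw [h4]; push_cast; ring, ?_⟩
    have h7 : (a : ℤ) * ((p : ℤ) ^ 2 + 1) = b * ((q : ℤ) ^ 2 + 1) := by exact_mod_cast h6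
    have h8 : (m : ℤ) * p + 2 = k * q := by
      rw [h4] at h5
      exact_mod_cast h5
    have h9 : ((m : ℤ) * p + 2) ^ 2 = k ^ 2 * q ^ 2 := by rw [h8]; ring
    linear_combination (k : ℤ) ^ 2 * h7 - (b : ℤ) * h9
  obtain ⟨p1, e1, f1⟩ := hkey n1 h1
  obtain ⟨p2, e2, f2⟩ := hkey n2 h2
  obtain ⟨p3, e3, f3⟩ := hkey n3 h3
  have g12 : p1 - p2 ≠ 0 := by
    intro h
    have : p1 = p2 := by linarith
    rw [this, ← e2] at e1
    exact h12 (by exact_mod_cast e1)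
  have g13 : p1 - p3 ≠ 0 := by
    intro h
    have : p1 = p3 := by linarith
    rw [this, ← e3] at e1
    exact h13 (by exact_mod_cast e1)
  have g23 : p2 - p3 ≠ 0 := by
    intro h
    have : p2 = p3 := by linarith
    rw [this, ← e3] at e2
    exact h23 (by exact_mod_cast e2)
  set α := (a : ℤ) * k ^ 2 - b * m ^ 2 with hα
  have k1 : α * (p1 + p2) - 4 * b * m = 0 := by
    have h : (p1 - p2) * (α * (p1 + p2) - 4 * b * m) = 0 := by linear_combination f1 - f2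
    exact (mul_eq_zero.1 h).resolve_left g12
  have k2 : α * (p1 + p3) - 4 * b * m = 0 := by
    have h : (p1 - p3) * (α * (p1 + p3) - 4 * b * m) = 0 := by linear_combination f1 - f3
    exact (mul_eq_zero.1 h).resolve_left g13
  have k3 : α = 0 := by
    have h : α * (p2 - p3) = 0 := by linear_combination k1 - k2
    exact (mul_eq_zero.1 h).resolve_right g23
  rw [k3] at k1
  have k4 : (b : ℤ) * m = 0 := by linarith
  have k5 : b * m = 0 := by exact_mod_cast k4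
  have := Nat.mul_pos hb hm
  omega

/-- the number of pairs with product at most `Z` -/
theorem pair_count (Z : ℕ) : ((((Icc 1 Z) ×ˢ (Icc 1 Z)).filter (fun x => x.1 * x.2 ≤ Z)).card : ℝ) ≤
    Z * (2 + 2 * Real.log Z) := by
  classical
  have h1 : (((Icc 1 Z) ×ˢ (Icc 1 Z)).filter (fun x => x.1 * x.2 ≤ Z)) ⊆
      (Icc 1 Z).biUnion (fun m => (Icc 1 (Z / m)).image (fun k => (m, k))) := by
    intro x hx
    obtain ⟨h2, h3⟩ := mem_filter.1 hx
    rw [mem_product, mem_Icc, mem_Icc] at h2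
    rw [mem_biUnion]
    refine ⟨x.1, mem_Icc.2 h2.1, mem_image.2 ⟨x.2, ?_, rfl⟩⟩
    rw [mem_Icc]
    refine ⟨h2.2.1, (Nat.le_div_iff_mul_le (by omega)).2 ?_⟩
    rwa [mul_comm]
  have h2 : ((((Icc 1 Z) ×ˢ (Icc 1 Z)).filter (fun x => x.1 * x.2 ≤ Z)).card : ℝ) ≤
      ∑ m ∈ Icc 1 Z, (Z : ℝ) * (1 / (m : ℝ)) := by
    have h3 := (card_le_card h1).trans card_biUnion_le
    have h4 : ∀ m ∈ Icc 1 Z, ((((Icc 1 (Z / m)).image (fun k => (m, k))).card : ℕ) : ℝ) ≤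
        (Z : ℝ) * (1 / (m : ℝ)) := by
      intro m _
      have h5 : ((Icc 1 (Z / m)).image (fun k => (m, k))).card ≤ Z / m := by
        refine card_image_le.trans ?_
        rw [Nat.card_Icc, Nat.add_sub_cancel]
      refine (Nat.cast_le.2 h5).trans (Nat.cast_div_le.trans (le_of_eq ?_))
      ring
    have h5 : ((((Icc 1 Z) ×ˢ (Icc 1 Z)).filter (fun x => x.1 * x.2 ≤ Z)).card : ℝ) ≤
        ∑ m ∈ Icc 1 Z, ((((Icc 1 (Z / m)).image (fun k => (m, k))).card : ℕ) : ℝ) := by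
      exact_mod_cast h3
    exact h5.trans (sum_le_sum h4)
  refine h2.trans ?_
  rw [← mul_sum]
  refine mul_le_mul_of_nonneg_left ?_ (Nat.cast_nonneg _)
  have h3 := ap (Icc 1 Z) 1 Z one_pos (fun m hm => by rw [mem_Icc] at hm; omega)
      (fun m _ m' _ => Nat.modEq_one)
  rwa [Nat.cast_one, div_one] at h3

end Pool.Agent.H79.SG
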