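import Pool.Agent.H79.SG.Ap

set_option autoImplicit false

/-!
# Pairs `p`, `r` such that a large prime divides `p ^ 2 + 1` and `r ^ 2 + 1`
-/

namespace Pool.Agent.H79.SG

open Finset

/-- the number of prime factors above `Y` is at most `log_2` -/
theorem card_pf (n : ℕ) (hn : 0 < n) : (n.primeFactors.card : ℝ) ≤ 2 * Real.log n := by
  have h1 : 2 ^ n.primeFactors.card ≤ n :=
    (Finset.pow_card_le_prod _ _ _ fun p hp => (Nat.prime_of_mem_primeFactors hp).two_le).trans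
      (Nat.le_of_dvd hn (Nat.prod_primeFactors_dvd n))
  have h2 : (2 : ℝ) ^ n.primeFactors.card ≤ n := by exact_mod_cast h1
  have h3 := Real.log_le_log (by positivity) h2
  rw [Real.log_pow] at h3
  have h4 := Real.log_two_gt_d9
  have h5 : (0 : ℝ) ≤ n.primeFactors.card := Nat.cast_nonneg _
  nlinarith

/-- larger `r` with the same prime `l` -/
private theorem larger (m l N : ℕ) (hl : l.Prime) (hlm : l ∣ m ^ 2 + 1) (R : Finset ℕ)
    (hR : ∀ r ∈ R, m < r ∧ r ≤ N ∧ l ∣ r ^ 2 + 1) :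
    ∑ r ∈ R, 1 / (r : ℝ) ≤ (4 + 4 * Real.log N) / l := by
  classical
  have hkey : ∀ r ∈ R, l ∣ r - m ∨ l ∣ r + m := by
    intro r hr
    obtain ⟨h1, h2, h3⟩ := hR r hr
    have h4 : l ∣ (r - m) * (r + m) := by
      have h5 := Nat.dvd_sub h3 hlm
      have h6 : r ^ 2 + 1 - (m ^ 2 + 1) = (r - m) * (r + m) := by
        rw [Nat.add_sub_add_right, Nat.sq_sub_sq, mul_comm]
      rwa [h6] at h5
    exact (Nat.Prime.dvd_mul hl).1 h4
  have hsub : R ⊆ R.filter (fun r => l ∣ r - m) ∪ R.filter (fun r => l ∣ r + m) := by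
    intro r hr
    rw [mem_union, mem_filter, mem_filter]
    rcases hkey r hr with h | h
    · exact Or.inl ⟨hr, h⟩
    · exact Or.inr ⟨hr, h⟩
  have h1 : ∑ r ∈ R, 1 / (r : ℝ) ≤ ∑ r ∈ R.filter (fun r => l ∣ r - m), 1 / (r : ℝ) +
      ∑ r ∈ R.filter (fun r => l ∣ r + m), 1 / (r : ℝ) := by
    refine (sum_le_sum_of_subset_of_nonneg hsub fun _ _ _ => by positivity).trans ?_
    have h2 := sum_union_inter (s₁ := R.filter (fun r => l ∣ r - m))
      (s₂ := R.filter (fun r => l ∣ r + m)) (f := fun r : ℕ => 1 / (r : ℝ))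
    have h3 : 0 ≤ ∑ r ∈ R.filter (fun r => l ∣ r - m) ∩ R.filter (fun r => l ∣ r + m),
        1 / (r : ℝ) := sum_nonneg fun _ _ => by positivity
    linarith
  have h2 := ap (R.filter (fun r => l ∣ r - m)) l N hl.pos (by
    intro r hr
    obtain ⟨h3, h4⟩ := mem_filter.1 hr
    obtain ⟨h5, h6, -⟩ := hR r h3
    have := Nat.le_of_dvd (by omega) h4
    exact ⟨by omega, h6⟩) (by
    intro r hr r' hr'
    obtain ⟨h3, h4⟩ := mem_filter.1 hr
    obtain ⟨h5, h6⟩ := mem_filter.1 hr'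
    have h7 := (hR r h3).1
    have h8 := (hR r' h5).1
    have h9 : m ≡ r [MOD l] := (Nat.modEq_iff_dvd' h7.le).2 h4
    have h10 : m ≡ r' [MOD l] := (Nat.modEq_iff_dvd' h8.le).2 h6
    exact h9.symm.trans h10)
  have h3 := ap (R.filter (fun r => l ∣ r + m)) l N hl.pos (by
    intro r hr
    obtain ⟨h3, h4⟩ := mem_filter.1 hr
    obtain ⟨h5, h6, -⟩ := hR r h3
    have := Nat.le_of_dvd (by omega) h4
    exact ⟨by omega, h6⟩) (by
    intro r hr r' hr'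
    obtain ⟨h3, h4⟩ := mem_filter.1 hr
    obtain ⟨h5, h6⟩ := mem_filter.1 hr'
    have h9 : r + m ≡ r' + m [MOD l] :=
      ((Nat.modEq_zero_iff_dvd).2 h4).trans ((Nat.modEq_zero_iff_dvd).2 h6).symm
    exact Nat.ModEq.add_right_cancel' m h9)
  refine h1.trans ((add_le_add h2 h3).trans (le_of_eq ?_))
  ring

/-- **Pairs with a large common prime.** -/
theorem pairs (N : ℕ) (hN : 2 ≤ N) (Y : ℝ) (hY : 1 ≤ Y) (A : Finset (ℕ × ℕ))
    (hA : ∀ x ∈ A, 1 ≤ x.1 ∧ x.1 ≤ N ∧ 1 ≤ x.2 ∧ x.2 ≤ N ∧ x.1 ≠ x.2 ∧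
      ∃ l : ℕ, l.Prime ∧ Y < l ∧ l ∣ x.1 ^ 2 + 1 ∧ l ∣ x.2 ^ 2 + 1) :
    ∑ x ∈ A, 1 / ((x.1 : ℝ) * x.2) ≤ 200 * (1 + Real.log N) ^ 3 / Y := by
  classical
  have hlog : 0 ≤ Real.log N := Real.log_natCast_nonneg N
  have hN0 : (0 : ℝ) < N := by positivity
  have hY0 : 0 < Y := by linarith
  -- for one `m` the sum over the larger `r`
  have hone : ∀ m ∈ Icc 1 N, ∀ R : Finset ℕ, (∀ r ∈ R, m < r ∧ r ≤ N ∧
      ∃ l : ℕ, l.Prime ∧ Y < l ∧ l ∣ m ^ 2 + 1 ∧ l ∣ r ^ 2 + 1) →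
      ∑ r ∈ R, 1 / (r : ℝ) ≤ 40 * (1 + Real.log N) ^ 2 / Y := by
    intro m hm R hR
    rw [mem_Icc] at hm
    set P := (m ^ 2 + 1).primeFactors.filter (fun l : ℕ => Y < (l : ℝ)) with hP
    have h1 : ∑ r ∈ R, 1 / (r : ℝ) ≤
        ∑ l ∈ P, ∑ r ∈ R.filter (fun r => l ∣ r ^ 2 + 1), 1 / (r : ℝ) := by
      have h2 : ∀ l ∈ P, ∑ r ∈ R.filter (fun r => l ∣ r ^ 2 + 1), 1 / (r : ℝ) =
          ∑ r ∈ R, if l ∣ r ^ 2 + 1 then 1 / (r : ℝ) else 0 := by
        intro l _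
        rw [sum_filter]
      rw [sum_congr rfl h2, sum_comm]
      refine sum_le_sum fun r hr => ?_
      obtain ⟨-, -, l, hl, hYl, hlm, hlr⟩ := hR r hr
      have hlP : l ∈ P := by
        rw [hP, mem_filter, Nat.mem_primeFactors]
        exact ⟨⟨hl, hlm, by positivity⟩, hYl⟩
      calc 1 / (r : ℝ) = (fun l : ℕ => if l ∣ r ^ 2 + 1 then 1 / (r : ℝ) else 0) l :=
            (if_pos hlr).symm
        _ ≤ _ := single_le_sum (f := fun l : ℕ => if l ∣ r ^ 2 + 1 then 1 / (r : ℝ) else 0)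
            (fun l _ => by
              split_ifs
              · positivity
              · exact le_rfl) hlP
    have h2 : ∀ l ∈ P, ∑ r ∈ R.filter (fun r => l ∣ r ^ 2 + 1), 1 / (r : ℝ) ≤
        (4 + 4 * Real.log N) / Y := by
      intro l hl
      rw [hP, mem_filter, Nat.mem_primeFactors] at hl
      obtain ⟨⟨h3, h4, -⟩, h5⟩ := hl
      refine (larger m l N h3 h4 _ (fun r hr => ?_)).trans ?_
      · obtain ⟨h6, h7⟩ := mem_filter.1 hr
        exact ⟨(hR r h6).1, (hR r h6).2.1, h7⟩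
      · exact div_le_div_of_nonneg_left (by positivity) hY0 h5.le
    have h3 : (P.card : ℝ) ≤ 6 * (1 + Real.log N) := by
      have h4 : (P.card : ℝ) ≤ ((m ^ 2 + 1).primeFactors.card : ℝ) :=
        Nat.cast_le.2 (card_filter_le _ _)
      have h5 := card_pf (m ^ 2 + 1) (by positivity)
      have h6 : Real.log ((m ^ 2 + 1 : ℕ) : ℝ) ≤ 3 * Real.log N := by
        have h7 : ((m ^ 2 + 1 : ℕ) : ℝ) ≤ (N : ℝ) ^ 3 := by
          have h8 : m ^ 2 + 1 ≤ N ^ 3 := by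
            have h9 : m ^ 2 ≤ N ^ 2 := Nat.pow_le_pow_left hm.2 2
            have h10 : N ^ 3 = N ^ 2 * N := by ring
            have h11 : 1 ≤ N ^ 2 := Nat.one_le_pow _ _ (by omega)
            nlinarith
          exact_mod_cast h8
        have h8 := Real.log_le_log (by positivity) h7
        rwa [Real.log_pow, Nat.cast_ofNat] at h8
      linarith
    refine h1.trans ((sum_le_sum h2).trans ?_)
    rw [sum_const, nsmul_eq_mul]
    calc (P.card : ℝ) * ((4 + 4 * Real.log N) / Y)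
        ≤ (6 * (1 + Real.log N)) * ((4 + 4 * Real.log N) / Y) :=
          mul_le_mul_of_nonneg_right h3 (by positivity)
      _ = 24 * (1 + Real.log N) ^ 2 / Y := by ring
      _ ≤ 40 * (1 + Real.log N) ^ 2 / Y := by
          refine div_le_div_of_nonneg_right ?_ hY0.le
          nlinarith [sq_nonneg (1 + Real.log N)]
  have hharm : ∑ m ∈ Icc 1 N, 1 / (m : ℝ) ≤ 2 + 2 * Real.log N := by
    have h1 := ap (Icc 1 N) 1 N one_pos (fun m hm => by rw [mem_Icc] at hm; omega)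
      (fun m _ m' _ => Nat.modEq_one)
    rwa [Nat.cast_one, div_one] at h1
  have half : ∀ A' : Finset (ℕ × ℕ), (∀ x ∈ A', 1 ≤ x.1 ∧ x.1 < x.2 ∧ x.2 ≤ N ∧
      ∃ l : ℕ, l.Prime ∧ Y < l ∧ l ∣ x.1 ^ 2 + 1 ∧ l ∣ x.2 ^ 2 + 1) →
      ∑ x ∈ A', 1 / ((x.1 : ℝ) * x.2) ≤ 80 * (1 + Real.log N) ^ 3 / Y := by
    intro A' hA'
    have hmaps : ∀ x ∈ A', x.1 ∈ Icc 1 N := by
      intro x hx
      obtain ⟨h1, h2, h3, -⟩ := hA' x hx
      rw [mem_Icc]; omega
    rw [← sum_fiberwise_of_maps_to hmaps]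
    have h1 : ∀ m ∈ Icc 1 N, ∑ x ∈ A'.filter (fun x => x.1 = m), 1 / ((x.1 : ℝ) * x.2) ≤
        40 * (1 + Real.log N) ^ 2 / Y * (1 / (m : ℝ)) := by
      intro m hm
      have hinj : Set.InjOn Prod.snd (A'.filter (fun x => x.1 = m) : Set (ℕ × ℕ)) := by
        intro x hx y hy h
        have h2 := (mem_filter.1 (mem_coe.1 hx)).2
        have h3 := (mem_filter.1 (mem_coe.1 hy)).2
        exact Prod.ext (h2.trans h3.symm) h
      have h2 : ∑ x ∈ A'.filter (fun x => x.1 = m), 1 / ((x.1 : ℝ) * x.2) =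
          (∑ r ∈ (A'.filter (fun x => x.1 = m)).image Prod.snd, 1 / (r : ℝ)) * (1 / (m : ℝ)) := by
        rw [sum_image (f := fun r : ℕ => 1 / (r : ℝ)) (g := Prod.snd) hinj, sum_mul]
        refine sum_congr rfl fun x hx => ?_
        rw [(mem_filter.1 hx).2, one_div_mul_one_div, mul_comm]
      rw [h2]
      refine mul_le_mul_of_nonneg_right (hone m hm _ ?_) (by positivity)
      intro r hr
      obtain ⟨x, hx, rfl⟩ := mem_image.1 hr
      obtain ⟨h3, h4⟩ := mem_filter.1 hx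
      obtain ⟨-, h5, h6, h7⟩ := hA' x h3
      rw [h4] at h5 h7
      exact ⟨h5, h6, h7⟩
    refine (sum_le_sum h1).trans ?_
    rw [← mul_sum]
    calc 40 * (1 + Real.log N) ^ 2 / Y * ∑ m ∈ Icc 1 N, 1 / (m : ℝ)
        ≤ 40 * (1 + Real.log N) ^ 2 / Y * (2 + 2 * Real.log N) :=
          mul_le_mul_of_nonneg_left hharm (by positivity)
      _ = _ := by ring
  have h1 := half (A.filter (fun x => x.1 < x.2)) (by
    intro x hx
    obtain ⟨h1, h2⟩ := mem_filter.1 hx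
    obtain ⟨h3, h4, h5, h6, h7, h8⟩ := hA x h1
    exact ⟨h3, h2, h6, h8⟩)
  have h2 := half ((A.filter (fun x => x.2 < x.1)).image Prod.swap) (by
    intro x hx
    obtain ⟨z, hz, rfl⟩ := mem_image.1 hx
    obtain ⟨h1, h2⟩ := mem_filter.1 hz
    obtain ⟨h3, h4, h5, h6, h7, l, h8, h9, h10, h11⟩ := hA z h1
    exact ⟨h5, h2, h4, l, h8, h9, h11, h10⟩)
  rw [sum_image (fun x _ y _ h => Prod.swap_injective h)] at h2
  have h3 : ∑ x ∈ A.filter (fun x => x.2 < x.1), 1 / ((x.1 : ℝ) * x.2) ≤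
      80 * (1 + Real.log N) ^ 3 / Y := by
    refine le_trans (le_of_eq (sum_congr rfl fun x _ => ?_)) h2
    rw [Prod.fst_swap, Prod.snd_swap, mul_comm]
  have h4 : A ⊆ A.filter (fun x => x.1 < x.2) ∪ A.filter (fun x => x.2 < x.1) := by
    intro x hx
    rw [mem_union, mem_filter, mem_filter]
    have h5 := (hA x hx).2.2.2.2.1
    rcases Nat.lt_or_gt_of_ne h5 with h | h
    · exact Or.inl ⟨hx, h⟩
    · exact Or.inr ⟨hx, h⟩
  have h5 := sum_union_inter (s₁ := A.filter (fun x => x.1 < x.2))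
      (s₂ := A.filter (fun x => x.2 < x.1)) (f := fun x : ℕ × ℕ => 1 / ((x.1 : ℝ) * x.2))
  have h6 : 0 ≤ ∑ x ∈ A.filter (fun x => x.1 < x.2) ∩ A.filter (fun x => x.2 < x.1),
      1 / ((x.1 : ℝ) * x.2) := sum_nonneg fun _ _ => by positivity
  have h7 : ∑ x ∈ A, 1 / ((x.1 : ℝ) * x.2) ≤
      ∑ x ∈ A.filter (fun x => x.1 < x.2) ∪ A.filter (fun x => x.2 < x.1),
        1 / ((x.1 : ℝ) * x.2) :=
    sum_le_sum_of_subset_of_nonneg h4 fun _ _ _ => by positivity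
  have h8 : 200 * (1 + Real.log N) ^ 3 / Y = 80 * (1 + Real.log N) ^ 3 / Y +
      80 * (1 + Real.log N) ^ 3 / Y + 40 * (1 + Real.log N) ^ 3 / Y := by ring
  have h9 : 0 ≤ 40 * (1 + Real.log N) ^ 3 / Y := by positivity
  rw [h8]
  linarith

end Pool.Agent.H79.SG
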