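import Mathlib

set_option autoImplicit false

/-!
# The sum of the squares of the divisors
-/

namespace Pool.Agent.H79.SG

open Finset ArithmeticFunction

theorem sg_mul {m p : ℕ} (hp : p.Prime) (hm : ¬ p ∣ m) :
    sigma 2 (m * p) = sigma 2 m * (p ^ 2 + 1) := by
  rw [isMultiplicative_sigma.map_mul_of_coprime ((Nat.Prime.coprime_iff_not_dvd hp).2 hm).symm]
  congr 1
  rw [sigma_apply, Nat.Prime.divisors hp, sum_pair hp.one_lt.ne]
  ring

private theorem sg_pow_le {r : ℕ} (hr : r.Prime) (e : ℕ) : sigma 2 (r ^ e) ≤ 2 * r ^ (2 * e) := by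
  rw [sigma_apply_prime_pow hr]
  induction e with
  | zero => simp
  | succ e ih =>
    rw [sum_range_succ]
    have h1 : r ^ (2 * (e + 1)) = r ^ (2 * e) * (r * r) := by ring
    have h2 : r ^ ((e + 1) * 2) = r ^ (2 * e) * (r * r) := by ring
    have h3 := hr.two_le
    have h4 : 4 ≤ r * r := Nat.mul_le_mul h3 h3
    have h5 : r ^ (2 * e) * 4 ≤ r ^ (2 * e) * (r * r) := Nat.mul_le_mul_left _ h4
    rw [h1, h2]
    omega

private theorem exists_pow {l N : ℕ} (hN : N ≠ 0) (hl : l.Prime) (h : l ∣ sigma 2 N) :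
    ∃ r e : ℕ, r.Prime ∧ 1 ≤ e ∧ r ^ e ∣ N ∧ ¬ r ^ (e + 1) ∣ N ∧ l ∣ sigma 2 (r ^ e) := by
  rw [isMultiplicative_sigma.multiplicative_factorization _ hN, Finsupp.prod] at h
  obtain ⟨r, hr, hl2⟩ := (Prime.dvd_finset_prod_iff hl.prime _).1 h
  rw [Nat.support_factorization, Nat.mem_primeFactors] at hr
  refine ⟨r, N.factorization r, hr.1, ?_, Nat.ordProj_dvd N r, ?_, hl2⟩
  · exact (hr.1.dvd_iff_one_le_factorization hN).1 hr.2.1
  · exact Nat.pow_succ_factorization_not_dvd hN hr.1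

/-- the key step -/
theorem key {n p l : ℕ} (hn : 0 < n) (hs : sigma 2 n = sigma 2 (n + 2)) (hp : p.Prime)
    (hpn : p ∣ n) (hpp : ¬ p ^ 2 ∣ n) (hl : l.Prime) (hlp : l ∣ p ^ 2 + 1) :
    (∃ r : ℕ, r.Prime ∧ r ∣ n + 2 ∧ ¬ r ^ 2 ∣ n + 2 ∧ l ∣ r ^ 2 + 1) ∨
      ∃ b : ℕ, b ^ 2 ∣ n + 2 ∧ l ≤ 2 * b ^ 6 := by
  obtain ⟨m, hm⟩ := hpn
  have hpm : ¬ p ∣ m := by
    rintro ⟨c, hc⟩
    exact hpp ⟨c, by rw [hm, hc]; ring⟩
  have h1 : sigma 2 n = sigma 2 m * (p ^ 2 + 1) := by rw [hm, mul_comm, sg_mul hp hpm]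
  have h2 : l ∣ sigma 2 (n + 2) := by
    rw [← hs, h1]
    exact hlp.mul_left _
  obtain ⟨r, e, hr, he, h3, h4, h5⟩ := exists_pow (by omega) hl h2
  rcases Nat.lt_or_ge e 2 with h | h
  · have he1 : e = 1 := by omega
    subst he1
    left
    refine ⟨r, hr, by simpa using h3, h4, ?_⟩
    have h6 := sg_mul (m := 1) hr (by
      intro h7
      have := Nat.le_of_dvd one_pos h7
      have := hr.two_le
      omega)
    rw [one_mul, sigma_one, one_mul] at h6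
    rwa [pow_one, h6] at h5
  · right
    refine ⟨r ^ (e / 2), ?_, ?_⟩
    · rw [← pow_mul]
      exact (pow_dvd_pow r (Nat.div_mul_le_self e 2)).trans h3
    · have h6 : 0 < sigma 2 (r ^ e) := by
        rw [sigma_apply]
        exact sum_pos (fun d hd => pow_pos (Nat.pos_of_mem_divisors hd) 2)
          ⟨1, Nat.one_mem_divisors.2 (pow_ne_zero _ hr.ne_zero)⟩
      refine (Nat.le_of_dvd h6 h5).trans ((sg_pow_le hr e).trans ?_)
      rw [← pow_mul]
      exact Nat.mul_le_mul_left _ (Nat.pow_le_pow_right hr.pos (by omega))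

end Pool.Agent.H79.SG
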