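import Pool.Agent.H79.SG.Bad
import Pool.Agent.H79.SG.Pair
import Pool.Agent.H79.SG.Cnt
import Pool.Agent.H79.SG.Sig

set_option autoImplicit false

/-!
# The count of the solutions
-/

namespace Pool.Agent.H79.SG

open Finset ArithmeticFunction Pool.Agent.H75.AP

/-- integers all of whose large prime factors are bad -/
theorem rank_part : ∃ C T0 : ℝ, 0 < C ∧ 1 ≤ T0 ∧ ∀ (N : ℕ) (t s : ℝ),
    t = Real.log (Real.log N) → T0 ≤ t → 2 ≤ s → 4 * s ≤ Real.exp t → 200 * t * s ≤ Real.exp t →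
    s ^ 2 * (400 * t) = Real.exp t → ∀ T : Finset ℕ, (∀ n ∈ T, 0 < n ∧ n ≤ N ∧
      ∀ p : ℕ, p.Prime → p ∣ n → (p : ℝ) ≤ Real.exp (200 * t * s) ∨
        ∀ l : ℕ, l.Prime → l ∣ p ^ 2 + 1 → (l : ℝ) ≤ Real.exp (4 * s)) →
    (T.card : ℝ) ≤ N * Real.exp (-(2 * s) + 6 * (t + C) + 2) := by
  classical
  obtain ⟨T0, hT0, hbad⟩ := bad
  obtain ⟨C, hC, hM⟩ := mertens_upper
  refine ⟨C, T0, hC, hT0, ?_⟩
  intro N t s ht htT hs hs4 hst hss T hT
  have ht1 : 1 ≤ t := hT0.trans htT
  have hlog : 0 < Real.log N := by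
    by_contra hcon
    push Not at hcon
    have h1 : Real.log N = 0 := le_antisymm hcon (Real.log_natCast_nonneg N)
    rw [h1, Real.log_zero] at ht
    linarith
  have hexp : Real.exp t = Real.log N := by rw [ht, Real.exp_log hlog]
  have hN0 : (0 : ℝ) < N := by
    rcases Nat.eq_zero_or_pos N with h | h
    · rw [h] at hlog; simp at hlog
    · exact_mod_cast h
  have hts : 0 < 200 * t * s := by positivity
  set η := 1 / (200 * t * s) with hη
  have hη0 : 0 < η := by positivity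
  have hη1 : η * (200 * t * s) = 1 := by rw [hη]; field_simp
  have hη4 : η ≤ 1 / 4 := by
    rw [hη]
    exact one_div_le_one_div_of_le (by norm_num) (by nlinarith)
  set P := (Icc 1 N).filter (fun p : ℕ => p.Prime ∧ ((p : ℝ) ≤ Real.exp (200 * t * s) ∨
        ∀ l : ℕ, l.Prime → l ∣ p ^ 2 + 1 → (l : ℝ) ≤ Real.exp (4 * s))) with hP
  have h1 := Pool.Agent.H99.PC.rnk P T (fun p hp => by
      rw [hP, mem_filter] at hp; exact hp.2.1) (fun m hm => by
      obtain ⟨h2, h3, h4⟩ := hT m hm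
      refine ⟨h2.ne', fun p hp hpm => ?_⟩
      rw [hP, mem_filter, mem_Icc]
      exact ⟨⟨hp.pos, (Nat.le_of_dvd h2 hpm).trans h3⟩, hp, h4 p hp hpm⟩) η hη4
  have h2 : (T.card : ℝ) * (N : ℝ) ^ (-1 + η) ≤ ∑ m ∈ T, (m : ℝ) ^ (-1 + η) := by
    rw [← nsmul_eq_mul, ← sum_const]
    refine sum_le_sum fun m hm => ?_
    obtain ⟨h2, h3, -⟩ := hT m hm
    exact Real.rpow_le_rpow_of_nonpos (by exact_mod_cast h2) (by exact_mod_cast h3) (by linarith)
  have h3 : ∑ p ∈ P, (p : ℝ) ^ (-1 + η) ≤ 2.72 * (t + C) + 1 := by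
    rw [← sum_filter_add_sum_filter_not P (fun p : ℕ => (p : ℝ) ≤ Real.exp (200 * t * s))]
    refine add_le_add ?_ ?_
    · have h4 : ∑ p ∈ P.filter (fun p : ℕ => (p : ℝ) ≤ Real.exp (200 * t * s)),
          (p : ℝ) ^ (-1 + η) ≤ ∑ p ∈ P.filter (fun p : ℕ => (p : ℝ) ≤ Real.exp (200 * t * s)),
            Real.exp 1 * (1 / (p : ℝ)) := by
        refine sum_le_sum fun p hp => ?_
        rw [mem_filter, hP, mem_filter] at hp
        have h7 : (0 : ℝ) < p := by exact_mod_cast hp.1.2.1.pos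
        rw [Real.rpow_add h7, Real.rpow_neg_one, mul_comm, one_div (p : ℝ)]
        refine mul_le_mul_of_nonneg_right ?_ (by positivity)
        calc (p : ℝ) ^ η ≤ Real.exp (200 * t * s) ^ η := Real.rpow_le_rpow h7.le hp.2 hη0.le
          _ = Real.exp (200 * t * s * η) := by rw [← Real.exp_mul]
          _ = Real.exp 1 := by rw [mul_comm, hη1]
      refine h4.trans ?_
      rw [← mul_sum]
      have h5 : ∑ p ∈ P.filter (fun p : ℕ => (p : ℝ) ≤ Real.exp (200 * t * s)), 1 / (p : ℝ) ≤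
          t + C := by
        have h6 : (3 : ℝ) ≤ Real.exp (200 * t * s) := by
          have := Real.add_one_le_exp (200 * t * s)
          nlinarith
        have h8 := hM _ h6
        rw [Real.log_exp] at h8
        have h9 : Real.log (200 * t * s) ≤ t := by
          rw [Real.log_le_iff_le_exp hts]
          exact hst
        refine le_trans ?_ (h8.trans (by linarith))
        refine sum_le_sum_of_subset_of_nonneg ?_ fun _ _ _ => by positivity
        intro p hp
        rw [mem_filter, hP, mem_filter] at hp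
        unfold PI
        rw [mem_filter, mem_range, Nat.lt_succ_iff]
        exact ⟨Nat.le_floor hp.2, hp.1.2.1, by exact_mod_cast hp.1.2.1.pos⟩
      have h6 := Real.exp_one_lt_d9
      calc Real.exp 1 * ∑ p ∈ P.filter (fun p : ℕ => (p : ℝ) ≤ Real.exp (200 * t * s)),
            1 / (p : ℝ) ≤ Real.exp 1 * (t + C) :=
            mul_le_mul_of_nonneg_left h5 (Real.exp_pos _).le
        _ ≤ 2.72 * (t + C) := mul_le_mul_of_nonneg_right (by linarith) (by linarith)
    · refine hbad N t s ht htT hs hs4 _ ?_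
      intro p hp
      rw [mem_filter, hP, mem_filter, mem_Icc, not_le] at hp
      obtain ⟨⟨⟨-, h4⟩, -, h5⟩, h6⟩ := hp
      exact ⟨h4, h6, h5.resolve_left (not_le.2 h6)⟩
  have h4 := h2.trans (h1.trans (Real.exp_le_exp.2 (mul_le_mul_of_nonneg_left h3
    (by norm_num : (0 : ℝ) ≤ 2))))
  have h5 : (N : ℝ) ^ (-1 + η) = (N : ℝ)⁻¹ * Real.exp (2 * s) := by
    rw [Real.rpow_add hN0, Real.rpow_neg_one]
    congr 1
    rw [Real.rpow_def_of_pos hN0, ← hexp, ← hss, hη]
    congr 1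
    field_simp
    ring
  rw [h5] at h4
  have h6 : (T.card : ℝ) = (T.card : ℝ) * ((N : ℝ)⁻¹ * Real.exp (2 * s)) *
      (N * Real.exp (-(2 * s))) := by
    have : Real.exp (2 * s) * Real.exp (-(2 * s)) = 1 := by rw [← Real.exp_add]; simp
    field_simp
    rw [mul_assoc, this, mul_one]
  rw [h6]
  refine (mul_le_mul_of_nonneg_right h4 (by positivity)).trans ?_
  have h7 : Real.exp (2 * (2.72 * (t + C) + 1)) * (N * Real.exp (-(2 * s))) =
      N * Real.exp (-(2 * s) + 2 * (2.72 * (t + C) + 1)) := by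
    rw [Real.exp_add]; ring
  rw [h7]
  refine mul_le_mul_of_nonneg_left (Real.exp_le_exp.2 ?_) hN0.le
  nlinarith

end Pool.Agent.H79.SG
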