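import Pool.Agent.H79.SG.Fin

set_option autoImplicit false

/-!
# The count of the solutions, assembled
-/

namespace Pool.Agent.H79.SG

open Finset ArithmeticFunction

/-- solutions with `p ∣ n`, `r ∣ n + 2`, `p r ≤ N exp s` -/
private theorem part_a (N : ℕ) (s : ℝ) (hN : 2 ≤ N) (hs : 0 ≤ s) (T : Finset ℕ)
    (hT : ∀ n ∈ T, 0 < n ∧ n ≤ N ∧ ∃ p r l : ℕ, p.Prime ∧ r.Prime ∧ p ≠ r ∧ p ∣ n ∧ r ∣ n + 2 ∧
      l.Prime ∧ Real.exp (4 * s) < l ∧ l ∣ p ^ 2 + 1 ∧ l ∣ r ^ 2 + 1 ∧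
      (p : ℝ) * r ≤ N * Real.exp s) :
    (T.card : ℝ) ≤ 2 * N * Real.exp s *
      (200 * (1 + Real.log ((N + 2 : ℕ) : ℝ)) ^ 3 / Real.exp (4 * s)) := by
  classical
  set A := ((Icc 1 (N + 2)) ×ˢ (Icc 1 (N + 2))).filter (fun x : ℕ × ℕ => x.1.Prime ∧ x.2.Prime ∧
    x.1 ≠ x.2 ∧ (x.1 : ℝ) * x.2 ≤ N * Real.exp s ∧
      ∃ l : ℕ, l.Prime ∧ Real.exp (4 * s) < l ∧ l ∣ x.1 ^ 2 + 1 ∧ l ∣ x.2 ^ 2 + 1) with hA
  have hsub : T ⊆ A.biUnion (fun x => T.filter (fun n => x.1 ∣ n ∧ x.2 ∣ n + 2)) := by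
    intro n hn
    obtain ⟨h1, h2, p, r, l, h3, h4, h5, h6, h7, h8, h9, h10, h11, h12⟩ := hT n hn
    rw [mem_biUnion]
    refine ⟨(p, r), ?_, ?_⟩
    · have h13 := Nat.le_of_dvd h1 h6
      have h14 := Nat.le_of_dvd (by omega) h7
      rw [hA, mem_filter, mem_product, mem_Icc, mem_Icc]
      exact ⟨⟨⟨h3.pos, by omega⟩, ⟨h4.pos, by omega⟩⟩, h3, h4, h5, h12, l, h8, h9, h10, h11⟩
    · rw [mem_filter]; exact ⟨hn, h6, h7⟩
  have h1 : (T.card : ℝ) ≤ ∑ x ∈ A, ((T.filter (fun n => x.1 ∣ n ∧ x.2 ∣ n + 2)).card : ℝ) := by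
    have h2 := (card_le_card hsub).trans card_biUnion_le
    exact_mod_cast h2
  have h2 : ∀ x ∈ A, ((T.filter (fun n => x.1 ∣ n ∧ x.2 ∣ n + 2)).card : ℝ) ≤
      2 * N * Real.exp s * (1 / ((x.1 : ℝ) * x.2)) := by
    intro x hx
    rw [hA, mem_filter] at hx
    obtain ⟨-, h3, h4, h5, h6, -⟩ := hx
    have h7 := crt_count N x.1 x.2 h3 h4 h5 (T.filter (fun n => x.1 ∣ n ∧ x.2 ∣ n + 2)) (by
      intro n hn
      obtain ⟨h8, h9, h10⟩ := mem_filter.1 hn
      exact ⟨(hT n h8).2.1, h9, h10⟩)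
    refine h7.trans ?_
    have h8 : (0 : ℝ) < (x.1 : ℝ) * x.2 := by
      have := Nat.mul_pos h3.pos h4.pos
      exact_mod_cast this
    have h9 : (1 : ℝ) ≤ Real.exp s := Real.one_le_exp hs
    have h10 : (N : ℝ) ≤ N * Real.exp s := le_mul_of_one_le_right (Nat.cast_nonneg _) h9
    rw [div_add_one h8.ne', mul_one_div]
    exact div_le_div_of_nonneg_right (by linarith) h8.le
  have h3 := pairs (N + 2) (by omega) (Real.exp (4 * s)) (Real.one_le_exp (by linarith)) A (by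
    intro x hx
    rw [hA, mem_filter, mem_product, mem_Icc, mem_Icc] at hx
    obtain ⟨⟨⟨h3, h4⟩, h5, h6⟩, -, -, h7, -, h8⟩ := hx
    exact ⟨h3, h4, h5, h6, h7, h8⟩)
  refine h1.trans ((sum_le_sum h2).trans ?_)
  rw [← mul_sum]
  exact mul_le_mul_of_nonneg_left h3 (by positivity)

/-- solutions with `p ∣ n`, `r ∣ n + 2`, `p r > N exp s` -/
private theorem part_b (N : ℕ) (s : ℝ) (hN : 2 ≤ N) (T : Finset ℕ)
    (hT : ∀ n ∈ T, 0 < n ∧ n ≤ N ∧ sigma 2 n = sigma 2 (n + 2) ∧ ∃ p r : ℕ, p.Prime ∧ r.Prime ∧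
      p ∣ n ∧ ¬ p ^ 2 ∣ n ∧ r ∣ n + 2 ∧ ¬ r ^ 2 ∣ n + 2 ∧ N * Real.exp s < (p : ℝ) * r) :
    (T.card : ℝ) ≤ 2 * ((3 * N * Real.exp (-s)) *
      (2 + 2 * Real.log (1 + 3 * N * Real.exp (-s)))) := by
  classical
  have hN0 : (0 : ℝ) < N := by positivity
  set Z := ⌊3 * N * Real.exp (-s)⌋₊ with hZ
  set P := ((Icc 1 Z) ×ˢ (Icc 1 Z)).filter (fun x : ℕ × ℕ => x.1 * x.2 ≤ Z) with hP
  have hsub : T ⊆ P.biUnion (fun x => T.filter (fun n => ∃ p q : ℕ, n = x.1 * p ∧ n + 2 = x.2 * q ∧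
      sigma 2 x.1 * (p ^ 2 + 1) = sigma 2 x.2 * (q ^ 2 + 1))) := by
    intro n hn
    obtain ⟨h1, h2, h3, p, r, hp, hr, ⟨m, hm⟩, h5, ⟨k, hk⟩, h7, h8⟩ := hT n hn
    have hm0 : 0 < m := Nat.pos_of_ne_zero (by rintro rfl; rw [mul_zero] at hm; omega)
    have hk0 : 0 < k := Nat.pos_of_ne_zero (by rintro rfl; rw [mul_zero] at hk; omega)
    have hmk : m * k ≤ Z := by
      refine Nat.le_floor ?_
      have h9 : ((m * k : ℕ) : ℝ) * ((p : ℝ) * r) ≤ 3 * N * N := by
        have h10 : m * k * (p * r) ≤ 3 * N * N := by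
          calc m * k * (p * r) = (p * m) * (r * k) := by ring
            _ = n * (n + 2) := by rw [← hm, ← hk]
            _ ≤ N * (3 * N) := Nat.mul_le_mul h2 (by omega)
            _ = _ := by ring
        exact_mod_cast h10
      have h10 : (0 : ℝ) < N * Real.exp s := by positivity
      have h11 : (1 : ℝ) ≤ ((m * k : ℕ) : ℝ) := by
        have := Nat.mul_pos hm0 hk0
        exact_mod_cast this
      have h12 : ((m * k : ℕ) : ℝ) * (N * Real.exp s) ≤ 3 * N * N :=
        (mul_le_mul_of_nonneg_left h8.le (by linarith)).trans h9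
      have h13 : 3 * N * Real.exp (-s) * (N * Real.exp s) = 3 * (N : ℝ) * N := by
        have : Real.exp (-s) * Real.exp s = 1 := by rw [← Real.exp_add]; simp
        linear_combination (3 * (N : ℝ) * N) * this
      rw [← h13] at h12
      exact le_of_mul_le_mul_right h12 h10
    have h9 : m ≤ m * k := Nat.le_mul_of_pos_right _ hk0
    have h10 : k ≤ m * k := Nat.le_mul_of_pos_left _ hm0
    rw [mem_biUnion]
    refine ⟨(m, k), ?_, ?_⟩
    · rw [hP, mem_filter, mem_product, mem_Icc, mem_Icc]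
      exact ⟨⟨⟨hm0, h9.trans hmk⟩, ⟨hk0, h10.trans hmk⟩⟩, hmk⟩
    · rw [mem_filter]
      refine ⟨hn, p, r, by rw [hm]; ring, by rw [hk]; ring, ?_⟩
      have hpm : ¬ p ∣ m := by
        rintro ⟨c, hc⟩
        exact h5 ⟨c, by rw [hm, hc]; ring⟩
      have hrk : ¬ r ∣ k := by
        rintro ⟨c, hc⟩
        exact h7 ⟨c, by rw [hk, hc]; ring⟩
      simp only
      rw [← sg_mul hp hpm, ← sg_mul hr hrk, mul_comm m p, mul_comm k r, ← hm, ← hk]
      exact h3
  have h1 : T.card ≤ P.card * 2 := by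
    refine (card_le_card hsub).trans (card_biUnion_le_card_mul _ _ _ ?_)
    intro x hx
    rw [hP, mem_filter, mem_product, mem_Icc, mem_Icc] at hx
    refine quad_count x.1 x.2 (sigma 2 x.1) (sigma 2 x.2) hx.1.1.1 ?_ _ ?_
    · rw [sigma_apply]
      exact sum_pos (fun d hd => pow_pos (Nat.pos_of_mem_divisors hd) 2)
          ⟨1, Nat.one_mem_divisors.2 (by omega)⟩
    · intro n hn
      exact (mem_filter.1 hn).2
  have h2 : (T.card : ℝ) ≤ (P.card : ℝ) * 2 := by exact_mod_cast h1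
  have h3 := pair_count Z
  rw [← hP] at h3
  have hZle : (Z : ℝ) ≤ 3 * N * Real.exp (-s) := Nat.floor_le (by positivity)
  have h4 : Real.log Z ≤ Real.log (1 + 3 * N * Real.exp (-s)) := by
    rcases Nat.eq_zero_or_pos Z with h | h
    · rw [h, Nat.cast_zero, Real.log_zero]
      exact Real.log_nonneg (by
        have : 0 ≤ 3 * (N : ℝ) * Real.exp (-s) := by positivity
        linarith)
    · exact Real.log_le_log (by exact_mod_cast h) (by linarith)
  have h5 : 0 ≤ Real.log Z := Real.log_natCast_nonneg Z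
  calc (T.card : ℝ) ≤ (P.card : ℝ) * 2 := h2
    _ ≤ (Z * (2 + 2 * Real.log Z)) * 2 := mul_le_mul_of_nonneg_right h3 (by norm_num)
    _ ≤ ((3 * N * Real.exp (-s)) * (2 + 2 * Real.log (1 + 3 * N * Real.exp (-s)))) * 2 := by
        gcongr
    _ = _ := by ring

/-- **The count of the solutions.** -/
theorem count : ∃ T0 : ℝ, 1 ≤ T0 ∧ ∀ (N : ℕ) (t : ℝ), t = Real.log (Real.log N) → T0 ≤ t →
    ∀ T : Finset ℕ, (∀ n ∈ T, 0 < n ∧ n ≤ N ∧ sigma 2 n = sigma 2 (n + 2)) →
    (T.card : ℝ) ≤ 11 * N * Real.exp (-(1 / 40 * Real.sqrt (Real.exp t / t))) := by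
  classical
  obtain ⟨C, T1, hC, hT1, hrank⟩ := rank_part
  refine ⟨T1 + 6000 * (1 + C), by linarith, ?_⟩
  intro N t ht htT T hT
  have ht6 : 6000 ≤ t := by linarith
  have htC : 6000 * (1 + C) ≤ t := by linarith
  have ht0 : 0 < t := by linarith
  set s := 1 / 20 * Real.sqrt (Real.exp t / t) with hs
  have hq0 : 0 ≤ Real.exp t / t := by positivity
  have hss : s ^ 2 * (400 * t) = Real.exp t := by
    rw [hs, mul_pow, Real.sq_sqrt hq0]
    field_simp
    ring
  have hst : t ^ 2 / 220 ≤ s := by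
    have h1 : t ^ 2 / 11 ≤ Real.sqrt (Real.exp t / t) := by
      refine Real.le_sqrt_of_sq_le ?_
      rw [le_div_iff₀ ht0]
      have h2 := Real.pow_div_factorial_le_exp t ht0.le 5
      have h3 : ((Nat.factorial 5 : ℕ) : ℝ) = 120 := by norm_num [Nat.factorial]
      rw [h3] at h2
      have h4 : (t ^ 2 / 11) ^ 2 * t = t ^ 5 / 121 := by ring
      rw [h4]
      refine le_trans ?_ h2
      exact div_le_div_of_nonneg_left (by positivity) (by norm_num) (by norm_num)
    rw [hs]; linarith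
  have hs27 : 27 * t ≤ s := by nlinarith
  have hs0 : 0 < s := by linarith
  have hsC : 24 * (1 + C) * t ≤ s := by nlinarith
  have h200 : 200 * t * s ≤ Real.exp t := by
    rw [← hss]; nlinarith
  have h4s : 4 * s ≤ Real.exp t := by nlinarith
  have hlog : 0 < Real.log N := by
    by_contra hcon
    push Not at hcon
    have h1 : Real.log N = 0 := le_antisymm hcon (Real.log_natCast_nonneg N)
    rw [h1, Real.log_zero] at ht
    linarith
  have hexp : Real.exp t = Real.log N := by rw [ht, Real.exp_log hlog]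
  have hN2 : 2 ≤ N := by
    by_contra hcon
    have h1 : N = 0 ∨ N = 1 := by omega
    rcases h1 with h | h
    · rw [h] at hlog; simp at hlog
    · rw [h] at hlog; simp at hlog
  have hN0 : (0 : ℝ) < N := by positivity
  set Y := Real.exp (s / 2) with hY
  have hY1 : 1 ≤ Y := Real.one_le_exp (by linarith)
  set E := Real.exp (-(s / 2)) with hE
  have hYE : ∀ x : ℝ, x / Y = x * E := by
    intro x
    rw [hE, Real.exp_neg, div_eq_mul_inv]
  have hE0 : 0 < E := Real.exp_pos _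
  -- the pieces
  set T2 := T.filter (fun n => ∃ b : ℕ, Y ≤ b ∧ b ^ 2 ∣ n) with hT2
  set T2' := T.filter (fun n => ∃ b : ℕ, Y ≤ b ∧ b ^ 2 ∣ n + 2) with hT2'
  set T3 := T.filter (fun n => ∀ p : ℕ, p.Prime → p ∣ n → (p : ℝ) ≤ Real.exp (200 * t * s) ∨
        ∀ l : ℕ, l.Prime → l ∣ p ^ 2 + 1 → (l : ℝ) ≤ Real.exp (4 * s)) with hT3
  set T4 := T.filter (fun n => ∃ p r l : ℕ, p.Prime ∧ r.Prime ∧ p ≠ r ∧ p ∣ n ∧ r ∣ n + 2 ∧
      l.Prime ∧ Real.exp (4 * s) < l ∧ l ∣ p ^ 2 + 1 ∧ l ∣ r ^ 2 + 1 ∧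
      (p : ℝ) * r ≤ N * Real.exp s) with hT4
  set T5 := T.filter (fun n => ∃ p r : ℕ, p.Prime ∧ r.Prime ∧
      p ∣ n ∧ ¬ p ^ 2 ∣ n ∧ r ∣ n + 2 ∧ ¬ r ^ 2 ∣ n + 2 ∧ N * Real.exp s < (p : ℝ) * r) with hT5
  have hsub : T ⊆ T2 ∪ T2' ∪ T3 ∪ T4 ∪ T5 := by
    intro n hn
    obtain ⟨hn0, hnN, hσ⟩ := hT n hn
    simp only [mem_union, hT2, hT2', hT3, hT4, hT5, mem_filter, hn, true_and]
    by_contra hcon
    simp only [not_or] at hcon
    obtain ⟨⟨⟨⟨c1, c2⟩, c3⟩, c4⟩, c5⟩ := hcon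
    push Not at c3
    obtain ⟨p, hp, hpn, hpL, l, hl, hlp, hlL⟩ := c3
    have hpY : Y ≤ p := by
      refine le_trans (Real.exp_le_exp.2 ?_) hpL.le
      nlinarith
    have hpp : ¬ p ^ 2 ∣ n := fun h => c1 ⟨p, hpY, h⟩
    rcases key hn0 hσ hp hpn hpp hl hlp with ⟨r, hr, hrn, hrr, hlr⟩ | ⟨b, hb, hlb⟩
    · have hpr : p ≠ r := by
        rintro rfl
        have h1 := Nat.dvd_sub hrn hpn
        rw [Nat.add_sub_cancel_left] at h1
        have h2 := Nat.le_of_dvd (by norm_num) h1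
        have h3 : (p : ℝ) ≤ 2 := by exact_mod_cast h2
        have h4 : (2 : ℝ) < Y := by
          have := Real.add_one_le_exp (s / 2)
          rw [← hY] at this
          linarith
        linarith
      rcases le_or_gt ((p : ℝ) * r) (N * Real.exp s) with h | h
      · exact c4 ⟨p, r, l, hp, hr, hpr, hpn, hrn, hl, hlL, hlp, hlr, h⟩
      · exact c5 ⟨p, r, hp, hr, hpn, hpp, hrn, hrr, h⟩
    · refine c2 ⟨b, ?_, hb⟩
      by_contra hbY
      push Not at hbY
      have h1 : (l : ℝ) ≤ 2 * (b : ℝ) ^ 6 := by exact_mod_cast hlb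
      have h2 : (b : ℝ) ^ 6 ≤ Y ^ 6 := pow_le_pow_left₀ (Nat.cast_nonneg _) hbY.le 6
      have h3 : Y ^ 6 = Real.exp (3 * s) := by
        rw [hY, ← Real.exp_nat_mul]; congr 1; push_cast; ring
      have h4 : 2 * Real.exp (3 * s) ≤ Real.exp (4 * s) := by
        have h5 : Real.exp (4 * s) = Real.exp s * Real.exp (3 * s) := by
          rw [← Real.exp_add]; congr 1; ring
        rw [h5]
        refine mul_le_mul_of_nonneg_right ?_ (Real.exp_pos _).le
        have := Real.add_one_le_exp s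
        linarith
      rw [h3] at h2
      linarith
  have hcard : (T.card : ℝ) ≤ T2.card + T2'.card + T3.card + T4.card + T5.card := by
    have h1 : T.card ≤ T2.card + T2'.card + T3.card + T4.card + T5.card := by
      refine (card_le_card hsub).trans ?_
      refine (card_union_le _ _).trans (Nat.add_le_add_right ?_ _)
      refine (card_union_le _ _).trans (Nat.add_le_add_right ?_ _)
      refine (card_union_le _ _).trans (Nat.add_le_add_right ?_ _)
      exact card_union_le _ _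
    exact_mod_cast h1
  have b2 : (T2.card : ℝ) ≤ 2 * N * E := by
    rw [← hYE]
    refine sq_count N Y hY1 T2 fun n hn => ?_
    obtain ⟨h1, h2⟩ := mem_filter.1 hn
    exact ⟨(hT n h1).1, (hT n h1).2.1, h2⟩
  have b2' : (T2'.card : ℝ) ≤ 6 * N * E := by
    have h1 : (T2'.image (fun n => n + 2)).card = T2'.card :=
      card_image_of_injective _ (fun a b h => by simpa using h)
    rw [← h1]
    refine (sq_count (N + 2) Y hY1 _ fun n hn => ?_).trans ?_
    · obtain ⟨m, hm, rfl⟩ := mem_image.1 hn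
      obtain ⟨h2, h3⟩ := mem_filter.1 hm
      have h4 := (hT m h2).2.1
      exact ⟨by omega, by omega, h3⟩
    · rw [hYE]
      refine mul_le_mul_of_nonneg_right ?_ hE0.le
      have h5 : (2 : ℝ) ≤ N := by exact_mod_cast hN2
      push_cast
      linarith
  have b3 : (T3.card : ℝ) ≤ N * E := by
    refine (hrank N t s ht (by linarith) (by linarith) h4s h200 hss T3 fun n hn => ?_).trans ?_
    · obtain ⟨h1, h2⟩ := mem_filter.1 hn
      exact ⟨(hT n h1).1, (hT n h1).2.1, h2⟩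
    · refine mul_le_mul_of_nonneg_left (Real.exp_le_exp.2 ?_) hN0.le
      nlinarith
  have hlogN2 : 1 + Real.log ((N + 2 : ℕ) : ℝ) ≤ Real.exp (t + 1) := by
    have h1 : ((N + 2 : ℕ) : ℝ) ≤ 2 * N := by
      have h5 : (2 : ℝ) ≤ N := by exact_mod_cast hN2
      push_cast; linarith
    have h2 := Real.log_le_log (by positivity) h1
    rw [Real.log_mul (by norm_num) hN0.ne', ← hexp] at h2
    have h3 := Real.log_two_lt_d9
    have h4 := Real.add_one_le_exp t
    have h5 := Real.exp_one_gt_d9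
    rw [Real.exp_add]
    nlinarith
  have b4 : (T4.card : ℝ) ≤ N * E := by
    refine (part_a N s hN2 hs0.le T4 fun n hn => ?_).trans ?_
    · obtain ⟨h1, h2⟩ := mem_filter.1 hn
      exact ⟨(hT n h1).1, (hT n h1).2.1, h2⟩
    · have h1 : (1 + Real.log ((N + 2 : ℕ) : ℝ)) ^ 3 ≤ Real.exp (t + 1) ^ 3 := by
        refine pow_le_pow_left₀ ?_ hlogN2 3
        have := Real.log_natCast_nonneg (N + 2)
        linarith
      have h2 : Real.exp (t + 1) ^ 3 = Real.exp (3 * t + 3) := by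
        rw [← Real.exp_nat_mul]; congr 1; push_cast; ring
      rw [h2] at h1
      have h3 : (400 : ℝ) ≤ Real.exp 6 := by
        have h8 : Real.exp 6 = Real.exp 1 ^ 6 := by rw [← Real.exp_nat_mul]; norm_num
        have h9 := Real.exp_one_gt_d9
        rw [h8]
        calc (400 : ℝ) ≤ 2.7182818283 ^ 6 := by norm_num
          _ ≤ Real.exp 1 ^ 6 := pow_le_pow_left₀ (by norm_num) h9.le 6
      have h4 : Real.exp s * (400 * Real.exp (3 * t + 3) / Real.exp (4 * s)) ≤ E := by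
        calc Real.exp s * (400 * Real.exp (3 * t + 3) / Real.exp (4 * s))
            ≤ Real.exp s * (Real.exp 6 * Real.exp (3 * t + 3) / Real.exp (4 * s)) := by gcongr
          _ = Real.exp (s + (6 + (3 * t + 3) - 4 * s)) := by
              rw [← Real.exp_add 6, ← Real.exp_sub, ← Real.exp_add]
          _ ≤ E := Real.exp_le_exp.2 (by linarith)
      calc 2 * N * Real.exp s * (200 * (1 + Real.log ((N + 2 : ℕ) : ℝ)) ^ 3 / Real.exp (4 * s))
          ≤ 2 * N * Real.exp s * (200 * Real.exp (3 * t + 3) / Real.exp (4 * s)) := by gcongr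
        _ = N * (Real.exp s * (400 * Real.exp (3 * t + 3) / Real.exp (4 * s))) := by ring
        _ ≤ N * E := mul_le_mul_of_nonneg_left h4 hN0.le
  have b5 : (T5.card : ℝ) ≤ N * E := by
    refine (part_b N s hN2 T5 fun n hn => ?_).trans ?_
    · obtain ⟨h1, h2⟩ := mem_filter.1 hn
      exact ⟨(hT n h1).1, (hT n h1).2.1, (hT n h1).2.2, h2⟩
    · have h1 : Real.log (1 + 3 * N * Real.exp (-s)) ≤ 2 + Real.log N := by
        have h2 : 1 + 3 * N * Real.exp (-s) ≤ 4 * N := by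
          have h3 : Real.exp (-s) ≤ 1 := Real.exp_le_one_iff.2 (by linarith)
          have h5 : (2 : ℝ) ≤ N := by exact_mod_cast hN2
          nlinarith
        have h3 := Real.log_le_log (by positivity) h2
        rw [Real.log_mul (by norm_num) hN0.ne'] at h3
        have h4 : Real.log 4 ≤ 2 := by
          have h5 : Real.log 4 = 2 * Real.log 2 := by
            rw [show (4 : ℝ) = 2 ^ 2 by norm_num, Real.log_pow]; norm_num
          have := Real.log_two_lt_d9
          linarith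
        linarith
      have h2 : 2 + 2 * Real.log (1 + 3 * N * Real.exp (-s)) ≤ Real.exp (t + 2) := by
        rw [Real.exp_add]
        have h3 := Real.add_one_le_exp t
        have h4 : (7 : ℝ) ≤ Real.exp 2 := by
          have h8 : Real.exp 2 = Real.exp 1 ^ 2 := by rw [← Real.exp_nat_mul]; norm_num
          have h9 := Real.exp_one_gt_d9
          rw [h8]
          calc (7 : ℝ) ≤ 2.7182818283 ^ 2 := by norm_num
            _ ≤ Real.exp 1 ^ 2 := pow_le_pow_left₀ (by norm_num) h9.le 2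
        rw [← hexp] at h1
        nlinarith
      have h3 : 6 * (Real.exp (-s) * Real.exp (t + 2)) ≤ E := by
        have h4 : (6 : ℝ) ≤ Real.exp 2 := by
          have h8 : Real.exp 2 = Real.exp 1 ^ 2 := by rw [← Real.exp_nat_mul]; norm_num
          have h9 := Real.exp_one_gt_d9
          rw [h8]
          calc (6 : ℝ) ≤ 2.7182818283 ^ 2 := by norm_num
            _ ≤ Real.exp 1 ^ 2 := pow_le_pow_left₀ (by norm_num) h9.le 2
        calc 6 * (Real.exp (-s) * Real.exp (t + 2)) ≤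
              Real.exp 2 * (Real.exp (-s) * Real.exp (t + 2)) := by gcongr
          _ = Real.exp (2 + (-s + (t + 2))) := by rw [← Real.exp_add, ← Real.exp_add]
          _ ≤ E := Real.exp_le_exp.2 (by linarith)
      calc 2 * ((3 * N * Real.exp (-s)) * (2 + 2 * Real.log (1 + 3 * N * Real.exp (-s))))
          ≤ 2 * ((3 * N * Real.exp (-s)) * Real.exp (t + 2)) := by gcongr
        _ = N * (6 * (Real.exp (-s) * Real.exp (t + 2))) := by ring
        _ ≤ N * E := mul_le_mul_of_nonneg_left h3 hN0.le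
  have hEeq : Real.exp (-(1 / 40 * Real.sqrt (Real.exp t / t))) = E := by
    rw [hE, hs]; congr 1; ring
  rw [hEeq]
  linarith

end Pool.Agent.H79.SG
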